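import Mathlib
import Pool.Agent.H35.ODD.Defs

set_option autoImplicit false

/-!
# Project SHARP (MP_6cdc09_gt): definitions

Aim.  For every real subspace `E` of `ℂⁿ` of even dimension `2P`, `1 ≤ P < n`, the
Brunn-Minkowski inequality for `V_E` holds on zonoids if (and only if) the necessary condition of `H89/EN` holds.
Built on project ODD (`H35/ODD`).

In the link of a family `W` of `i - 2` vectors, `W^⊥` has `B` complex coordinates (planes), `2B = 2n - i + 2`,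
and no real coordinate.  We use the vectors `Vc B` and the modes `Mo B` of ODD with real coordinate `0`: then
`F n = 0` if `n none ≠ 0` (`NL`).  Random set `Z` of planes as in ODD, `m = |Z|`, `r = 2(B - m)`.
-/

open Pool.Agent.H89.CZ Pool.Agent.H35.ODD
open scoped ComplexConjugate

noncomputable section

namespace Pool.Agent.H35.SHP

variable {B : ℕ}

/-- No line. -/
def NL (F : Mo B → ℂ) : Prop := ∀ n : Mo B, n none ≠ 0 → F n = 0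

/-! ### Charged modes -/

/-- The condition for the charged modes at a vertex with `m` planes (convex cone in `(f0, f1, f2)`).  The node
`(2, 0)` has its own coefficient `t`. -/
def GoodE (r m : ℕ) (f0 f1 f2 : ℝ) : Prop :=
  ∃ Ap Am Bp Bm t : ℝ, 0 ≤ Ap ∧ 0 ≤ Am ∧ 0 ≤ Bp ∧ 0 ≤ Bm ∧ 0 ≤ t ∧
    f2 = f1 + Ap - Am ∧ f0 = f1 - Bp + Bm ∧
    (4 ≤ r → t ≤ 2 * f1 - 2 * Ap - 2 * Am) ∧ t ≤ 2 * f2 ∧
    (∀ x y : ℝ, 0 ≤ (t - f1) * (x + y) ^ 2 + (4 * Ap / (2 + r) - (Ap - Am)) * x ^ 2 +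
      ((2 * Am + 2 * Bm) / (2 * m) + (Bp - Bm)) * y ^ 2) ∧
    ∀ j l : ℕ, Even (j + l) → 2 ≤ j + l → ¬ (j = 2 ∧ l = 0) →
      0 ≤ TT0 f1 Ap Am Bp j l ∧ ∀ x y : ℝ, 0 ≤ QQf r m f1 Ap Am Bp Bm j l x y

/-- Degree two in one plane. -/
def Sg (n : Mo B) : Prop := ∃ k : Fin B, nb n (some k) = 2 ∧ ∀ l : Bk B, l ≠ some k → nb n l = 0

/-- The cost of the cross terms at `Z` (`ODD.cross`). -/
def cst (Z : Finset (Fin B)) (φ : ℕ → ℝ) (n : Mo B) : ℝ :=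
  (if 1 ≤ Z.card then max 0 (φ Z.card - φ (Z.card - 1)) else 0) * ∑ k ∈ Zᶜ, eb n k ^ 2 +
    (if 2 ≤ Z.card then max 0 (φ (Z.card - 1) - φ (Z.card - 2)) else 0) * ∑ k ∈ Z, eb n k ^ 2 +
    ∑ k ∈ Z, eb n k ^ 2 / nb n (some k) *
      (max 0 (φ (Z.card - 1) - φ Z.card) * ∑ l ∈ Zᶜ, (nb n (some l) : ℝ) +
        max 0 (φ (Z.card - 2) - φ (Z.card - 1)) * ∑ l ∈ Z.erase k, (nb n (some l) : ℝ))

/-- The own coefficient at `Z` without the cross terms. -/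
def own (Z : Finset (Fin B)) (φ : ℕ → ℝ) (n : Mo B) : ℝ :=
  ∑ j, ∑ k ∈ Finset.univ.erase j, p2 φ Z j k * ((nb n j : ℝ) * nb n k) -
    ∑ k, p1 φ Z k * ((nb n (some k) : ℝ) - eb n k ^ 2)

/-- A certificate at `Z` for the charged modes: `T` is passed to the level below, `R` and `S` are kept. -/
structure LC (Z : Finset (Fin B)) (φ : ℕ → ℝ) (T S R : Mo B → ℝ) (Dt Du : Mo B → Bk B → ℝ) :
    Prop where
  dD : ∀ n k, Du (upo n k) k = Dt n k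
  hT : ∀ (q : ℕ) (n : Mo B), n ∈ levo B (2 * q + 2) → n none = 0 → 0 ≤ T n
  hI : ∀ (q : ℕ) (n : Mo B), n ∈ levo B (2 * q + 2) → n none = 0 → (∃ k, eb n k ≠ 0) → ¬ Sg n →
    (2 * (q : ℝ) + 1) ^ 2 * T n + ∑ k, wt n k * Du n k + cst Z φ n + R n ≤ own Z φ n
  hS : ∀ n : Mo B, n ∈ levo B 2 → n none = 0 → (∃ k, eb n k ≠ 0) → Sg n →
    T n + ∑ k, wt n k * Du n k + R n ≤ own Z φ n
  hII : ∀ (q : ℕ) (n : Mo B), n ∈ levo B (2 * q + 2) → n none = 0 →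
    ∀ v : Bk B → ℝ, v none = 0 →
      ∑ j, ∑ k ∈ Finset.univ.erase j, p2 φ Z j k * (v j * v k) ≤
        (T n + S n) * (∑ k, v k) ^ 2 + ∑ k, Dt n k * v k ^ 2

/-- What is kept. -/
def Kp (S R : Mo B → ℝ) (M : ℕ) (F : Mo B → ℂ) (p : Mo B → Prop) [DecidablePred p] : ℝ :=
  ∑ q ∈ Finset.range (M + 1), (dd q / ((2 * q + 2) * (2 * q + 1)) *
      ∑ n ∈ (levo B (2 * q + 2)).filter p, mmo n * R n * ‖F n‖ ^ 2 -
    dd q * ∑ n ∈ (levo B (2 * q)).filter p, mmo n * S n * ‖F n‖ ^ 2)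

/-- The degree. -/
def dg (n : Mo B) : ℝ := ∑ k, (nb n k : ℝ)

/-! ### Charge-free modes -/

/-- The charge-free part at the vertices with `m` planes is nonnegative (convex cone in `(f0, f1, f2)`). -/
def NOK (B m : ℕ) (f0 f1 f2 : ℝ) : Prop :=
  ∀ Z : Finset (Fin B), Z.card = m → ∀ (M : ℕ) (F : Mo B → ℂ), (∀ n, F n = ∑ k, F (upo n k)) →
    NL F → F 0 = 0 →
    0 ≤ Qf (VP2 Z f0 f1 f2) (VP1 Z f1 f2) (fun _ _ => 0) M F (fun n => ¬ ∃ k, eb n k ≠ 0)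

/-! ### The condition on `φ` -/

/-- The condition at the vertex `Z = univ` (`f1 = φ (B-1)`, `f0 = φ (B-2)`). -/
def Uni (B : ℕ) (f0 f1 : ℝ) : Prop :=
  0 ≤ f0 ∧ 0 ≤ f1 ∧ ((f0 ≤ f1 ∧ (4 * (B : ℝ) + 1) * f1 ≤ (6 * B + 2) * f0) ∨
    (f1 ≤ f0 ∧ (2 * (B : ℝ) - 2) * f0 ≤ (2 * B - 1) * f1))

/-- The triple of `φ` at the vertices with `m < B` planes. -/
def AtV (φ : ℕ → ℝ) (m : ℕ) (f0 f1 f2 : ℝ) : Prop :=
  (1 ≤ m → f1 = φ (m - 1)) ∧ f2 = φ m ∧ (2 ≤ m → f0 = φ (m - 2))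

/-- The condition on `φ` at the vertices with `m` planes. -/
def EOkAt (φ : ℕ → ℝ) (B m : ℕ) : Prop :=
  (m < B ∧ (∃ f0 f1 f2 : ℝ, GoodE (2 * B - 2 * m) m f0 f1 f2 ∧ AtV φ m f0 f1 f2) ∧
    ∃ f0 f1 f2 : ℝ, NOK B m f0 f1 f2 ∧ AtV φ m f0 f1 f2) ∨
  (m = B ∧ Uni B (φ (B - 2)) (φ (B - 1)))

end Pool.Agent.H35.SHP
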