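import Mathlib
import Pool.Agent.H35.SHP.EAbs
import Pool.Agent.H35.ODD.OCr
import Pool.Agent.H35.ODD.OEz

set_option autoImplicit false

/-!
# ECha: the charged modes (model: `H35/ODD/OCha.lean`, theorem `charged_nonneg`)

`abs_low` with `T n = EZ (T Z n)`, `S`, `R`, `Dt`, `Du` likewise (replace `T Z`, … by `0` for `Z` with `PZ = 0`,
or use `EZ_mono`, which only needs `PZ ≠ 0`; for `dD` with `PZ = 0` note `PZ s Z * x = 0`, so prove
`EZ (Du Z (upo n k) k) = EZ (Dt Z n k)` by `Finset.sum_congr` and cases).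
(II) is `EZ` of `LC.hII`; (I): `cn = EZ (own Z) + ∑_{j≠k} AX2 j k e_j e_k`.
If `¬ Sg n`: `cross` (`e = eb n`, `N = nb n (some ·)`) and `hI`.
If `Sg n` (then `q = 0` as the degree is `2`): at most one `e_k ≠ 0` (`abs_eb_le`), the last sum is `0`, `hS`.
`h0`: the zero mode is not charged.
-/

open Pool.Agent.H89.CZ Pool.Agent.H35.ODD

noncomputable section

namespace Pool.Agent.H35.SHP

variable {B : ℕ}

private theorem EZ_nn {s : Fin B → ℝ} (hs : ∀ k, 0 ≤ s k ∧ s k ≤ 1) {g : Finset (Fin B) → ℝ}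
    (h : ∀ Z, PZ s Z ≠ 0 → 0 ≤ g Z) : 0 ≤ EZ s g := by
  have := EZ_mono hs (g := fun _ => 0) (h := g) h
  rwa [EZ_const] at this

private theorem sum_nb {N : ℕ} {n : Mo B} (hn : n ∈ levo B N) : ∑ k, nb n k = N := by
  have h := ja_add_lz (∅ : Finset (Fin B)) hn
  have e1 : ja (∅ : Finset (Fin B)) n = ∑ k, nb n k := by
    unfold ja zb
    simp
  have e2 : lz (∅ : Finset (Fin B)) n = 0 := by
    unfold lz zb
    simp
  rw [e1, e2] at h
  exact h

/-- With degree two in one plane there are no cross terms. -/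
private theorem sg_cross {n : Mo B} (h : Sg n) (X2 : Fin B → Fin B → ℝ) :
    ∑ j, ∑ k ∈ Finset.univ.erase j, X2 j k * (eb n j * eb n k) = 0 := by
  obtain ⟨k0, _, h0⟩ := h
  have hz : ∀ l : Fin B, l ≠ k0 → eb n l = 0 := by
    intro l hl
    have h1 := abs_eb_le n l
    rw [h0 (some l) (fun h' => hl (Option.some.inj h')), Nat.cast_zero] at h1
    exact abs_eq_zero.1 (le_antisymm h1 (abs_nonneg _))
  refine Finset.sum_eq_zero fun j _ => Finset.sum_eq_zero fun k hk => ?_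
  have hkj : k ≠ j := Finset.ne_of_mem_erase hk
  by_cases hj : j = k0
  · rw [hz k (fun h' => hkj (h'.trans hj.symm))]
    ring
  · rw [hz j hj]
    ring

theorem charged_low {c : Fin B → ℝ} (hc : ∀ k, 0 ≤ c k ∧ c k ≤ 1) (φ : ℕ → ℝ)
    (T S R : Finset (Fin B) → Mo B → ℝ) (Dt Du : Finset (Fin B) → Mo B → Bk B → ℝ)
    (hL : ∀ Z, PZ (fun k => c k ^ 2) Z ≠ 0 → LC Z φ (T Z) (S Z) (R Z) (Dt Z) (Du Z)) (M : ℕ)
    (F : Mo B → ℂ) (hF : ∀ n, F n = ∑ k, F (upo n k)) (hN : NL F) :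
    Kp (fun n => EZ (fun k => c k ^ 2) (fun Z => S Z n))
        (fun n => EZ (fun k => c k ^ 2) (fun Z => R Z n)) M F (fun n => ∃ k, eb n k ≠ 0) ≤
      Qf (AP2 c φ) (AP1 c φ) (AX2 c φ) M F (fun n => ∃ k, eb n k ≠ 0) := by
  set s : Fin B → ℝ := fun k => c k ^ 2 with hsdef
  have hs : ∀ k, 0 ≤ s k ∧ s k ≤ 1 := fun k =>
    ⟨sq_nonneg _, by simpa [hsdef] using pow_le_one₀ (n := 2) (hc k).1 (hc k).2⟩
  have hP2 : ∀ g : Bk B → Bk B → ℝ, ∑ j, ∑ k ∈ Finset.univ.erase j, AP2 c φ j k * g j k =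
      EZ s (fun Z => ∑ j, ∑ k ∈ Finset.univ.erase j, p2 φ Z j k * g j k) := by
    intro g
    rw [EZ_sum]
    refine Finset.sum_congr rfl fun j _ => ?_
    rw [EZ_sum]
    refine Finset.sum_congr rfl fun k _ => ?_
    unfold AP2
    rw [mul_comm, ← EZ_mul]
    congr 1
    funext Z
    ring
  have hP1 : ∀ g : Fin B → ℝ, ∑ k, AP1 c φ k * g k = EZ s (fun Z => ∑ k, p1 φ Z k * g k) := by
    intro g
    rw [EZ_sum]
    refine Finset.sum_congr rfl fun k _ => ?_
    unfold AP1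
    rw [mul_comm, ← EZ_mul]
    congr 1
    funext Z
    ring
  have hown : ∀ n : Mo B, EZ s (fun Z => own Z φ n) =
      ∑ j, ∑ k ∈ Finset.univ.erase j, AP2 c φ j k * ((nb n j : ℝ) * nb n k) -
        ∑ k, AP1 c φ k * ((nb n (some k) : ℝ) - eb n k ^ 2) := by
    intro n
    rw [hP2 (fun j k => (nb n j : ℝ) * nb n k), hP1 (fun k => (nb n (some k) : ℝ) - eb n k ^ 2)]
    have h1 := EZ_add s (fun Z => own Z φ n)
      (fun Z => ∑ k, p1 φ Z k * ((nb n (some k) : ℝ) - eb n k ^ 2))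
    have h2 : (fun Z => own Z φ n + ∑ k, p1 φ Z k * ((nb n (some k) : ℝ) - eb n k ^ 2)) =
        fun Z => ∑ j, ∑ k ∈ Finset.univ.erase j, p2 φ Z j k * ((nb n j : ℝ) * nb n k) := by
      funext Z
      unfold own
      ring
    rw [h2] at h1
    linarith
  refine abs_low (AP2 c φ) (AP1 c φ) (AX2 c φ) M F hF hN _ ?_
    (fun n => EZ s (fun Z => T Z n)) (fun n => EZ s (fun Z => S Z n))
    (fun n => EZ s (fun Z => R Z n)) (fun n k => EZ s (fun Z => Dt Z n k))
    (fun n k => EZ s (fun Z => Du Z n k)) ?_ ?_ ?_ ?_ ?_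
  · intro n k
    simp only [eb_upo]
  · intro n k
    unfold EZ
    refine Finset.sum_congr rfl fun Z _ => ?_
    by_cases hZ : PZ s Z = 0
    · rw [hZ, zero_mul, zero_mul]
    · exact congrArg (PZ s Z * ·) ((hL Z hZ).dD n k)
  · intro q n hn _ hnn
    exact EZ_nn hs fun Z hZ => (hL Z hZ).hT q n hn hnn
  · intro q n hn hp hnn
    have e1 : ∑ k, wt n k * EZ s (fun Z => Du Z n k) =
        EZ s (fun Z => ∑ k, wt n k * Du Z n k) := by
      rw [EZ_sum]
      refine Finset.sum_congr rfl fun k _ => ?_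
      rw [EZ_mul]
    unfold cn
    rw [← hown n, e1]
    by_cases hsg : Sg n
    · have hq : q = 0 := by
        obtain ⟨k0, h2, h0⟩ := hsg
        have h1 := sum_nb hn
        rw [Finset.sum_eq_single (some k0) (fun l _ hl => h0 l hl)
          (fun h' => absurd (Finset.mem_univ _) h'), h2] at h1
        omega
      subst hq
      rw [sg_cross hsg]
      have key := EZ_mono hs (g := fun Z => T Z n + ∑ k, wt n k * Du Z n k + R Z n)
        (h := fun Z => own Z φ n) (fun Z hZ => (hL Z hZ).hS n hn hnn hp hsg)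
      rw [EZ_add, EZ_add] at key
      simp only [Nat.cast_zero, mul_zero, zero_add, one_pow, one_mul, add_zero]
      exact key
    · have hcr := cross hc φ (eb n) (fun k => nb n (some k)) (by
        intro k hk
        have h := abs_eb_le n k
        rw [hk, Nat.cast_zero] at h
        exact abs_eq_zero.1 (le_antisymm h (abs_nonneg _)))
      have hcr' : -(EZ s (fun Z => cst Z φ n)) ≤
          ∑ j, ∑ k ∈ Finset.univ.erase j, AX2 c φ j k * (eb n j * eb n k) := hcr
      have key := EZ_mono hs (g := fun Z => ((2 * (q : ℝ) + 1) ^ 2 * T Z n +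
          ∑ k, wt n k * Du Z n k) + cst Z φ n + R Z n)
        (h := fun Z => own Z φ n) (fun Z hZ => (hL Z hZ).hI q n hn hnn hp hsg)
      rw [EZ_add, EZ_add, EZ_add, EZ_mul] at key
      linarith
  · intro q n hn _ hnn v hv
    rw [hP2 (fun j k => v j * v k)]
    have e1 : (EZ s (fun Z => T Z n) + EZ s (fun Z => S Z n)) * (∑ k, v k) ^ 2 +
        ∑ k, EZ s (fun Z => Dt Z n k) * v k ^ 2 =
        EZ s (fun Z => (T Z n + S Z n) * (∑ k, v k) ^ 2 + ∑ k, Dt Z n k * v k ^ 2) := by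
      rw [EZ_add, EZ_sum]
      congr 1
      · rw [← EZ_add, mul_comm, ← EZ_mul]
        congr 1
        funext Z
        ring
      · refine Finset.sum_congr rfl fun k _ => ?_
        rw [mul_comm, ← EZ_mul]
        congr 1
        funext Z
        ring
    rw [e1]
    exact EZ_mono hs fun Z hZ => (hL Z hZ).hII q n hn hnn v hv
  · rintro ⟨k, hk⟩
    exact absurd (by simp [eb]) hk

end Pool.Agent.H35.SHP
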