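import Mathlib
import Pool.Agent.H35.SHP.Defs
import Pool.Agent.H35.ODD.OVer

set_option autoImplicit false

/-!
# EVer: (II) at a vertex without line (model: `ver_II` of `H35/ODD/OVer.lean`, copy its private lemmas)

`r + 2m = 2B`, `v none = 0`, `n none = 0`.  `x = ∑_{k ∉ Z} v_k`, `y = ∑_{k ∈ Z} v_k`, `j = ja Z n`, `l = lz Z n`.
Coefficients: `(ga)/(N_k + 2) - f2` for `k ∉ Z`, `(gz)/(N_k + 2) - f0` for `k ∈ Z` (for the line anything:
`v none = 0`).  `∑_{planes k ∉ Z} (N_k + 2) = j + r` (as `n none = 0`), `∑_{k ∈ Z} (N_k + 2) = l + 2m`; Cauchy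
(`Finset.sq_sum_div_le_sum_sq_div`; for `r = 0` the sum over `Zᶜ` is empty, `x = 0`, `x²/(j+r) = 0`):
right - left `≥ (t - f1)(x+y)² + (ga/(j+r) - (f2 - f1)) x² + (gz/(l+2m) - (f0 - f1)) y²`.
-/

open Pool.Agent.H89.CZ Pool.Agent.H35.ODD

noncomputable section

namespace Pool.Agent.H35.SHP

variable {B : ℕ}

private theorem sum_blk (Z : Finset (Fin B)) (g : Bk B → ℝ) :
    ∑ k, g k = ∑ k ∈ zb Z, g k + ∑ k ∈ (zb Z)ᶜ, g k :=
  (Finset.sum_add_sum_compl _ _).symm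

private theorem sum_zb {R : Type*} [AddCommMonoid R] (Z : Finset (Fin B)) (g : Bk B → R) :
    ∑ k ∈ zb Z, g k = ∑ k ∈ Z, g (some k) := by
  simp [zb, Finset.sum_map]

private theorem compl_zb (Z : Finset (Fin B)) : (zb Z)ᶜ = insert none (zb Zᶜ) := by
  ext k
  cases k <;> simp [zb]

private theorem sum_zbc {R : Type*} [AddCommMonoid R] (Z : Finset (Fin B)) (g : Bk B → R) :
    ∑ k ∈ (zb Z)ᶜ, g k = g none + ∑ k ∈ Zᶜ, g (some k) := by
  rw [compl_zb, Finset.sum_insert (by simp [zb]), sum_zb]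

private theorem dsum (Z : Finset (Fin B)) (f0 f1 f2 : ℝ) (v : Bk B → ℝ) :
    ∑ j, ∑ k ∈ Finset.univ.erase j, VP2 Z f0 f1 f2 j k * (v j * v k) =
      f2 * ((∑ k ∈ (zb Z)ᶜ, v k) ^ 2 - ∑ k ∈ (zb Z)ᶜ, v k ^ 2) +
        2 * f1 * (∑ k ∈ (zb Z)ᶜ, v k) * (∑ k ∈ zb Z, v k) +
        f0 * ((∑ k ∈ zb Z, v k) ^ 2 - ∑ k ∈ zb Z, v k ^ 2) := by
  have h1 : ∀ j : Bk B, ∑ k ∈ Finset.univ.erase j, VP2 Z f0 f1 f2 j k * (v j * v k) =
      ∑ k, VP2 Z f0 f1 f2 j k * (v j * v k) - VP2 Z f0 f1 f2 j j * (v j * v j) := fun j =>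
    Finset.sum_erase_eq_sub (Finset.mem_univ j)
  have A : ∀ j ∈ zb Z, ∑ k, VP2 Z f0 f1 f2 j k * (v j * v k) =
      v j * (f0 * (∑ k ∈ zb Z, v k) + f1 * ∑ k ∈ (zb Z)ᶜ, v k) := by
    intro j hj
    rw [sum_blk Z, mul_add, Finset.mul_sum, Finset.mul_sum, Finset.mul_sum, Finset.mul_sum]
    congr 1
    · refine Finset.sum_congr rfl fun k hk => ?_
      rw [VP2, if_pos hj, if_pos hk]; ring
    · refine Finset.sum_congr rfl fun k hk => ?_
      rw [VP2, if_pos hj, if_neg (Finset.mem_compl.1 hk)]; ring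
  have A' : ∀ j ∈ (zb Z)ᶜ, ∑ k, VP2 Z f0 f1 f2 j k * (v j * v k) =
      v j * (f1 * (∑ k ∈ zb Z, v k) + f2 * ∑ k ∈ (zb Z)ᶜ, v k) := by
    intro j hj
    have hj' := Finset.mem_compl.1 hj
    rw [sum_blk Z, mul_add, Finset.mul_sum, Finset.mul_sum, Finset.mul_sum, Finset.mul_sum]
    congr 1
    · refine Finset.sum_congr rfl fun k hk => ?_
      rw [VP2, if_neg hj', if_pos hk]; ring
    · refine Finset.sum_congr rfl fun k hk => ?_
      rw [VP2, if_neg hj', if_neg (Finset.mem_compl.1 hk)]; ring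
  have D : ∑ j, VP2 Z f0 f1 f2 j j * (v j * v j) =
      f0 * (∑ k ∈ zb Z, v k ^ 2) + f2 * ∑ k ∈ (zb Z)ᶜ, v k ^ 2 := by
    rw [sum_blk Z, Finset.mul_sum, Finset.mul_sum]
    congr 1
    · refine Finset.sum_congr rfl fun k hk => ?_
      rw [VP2, if_pos hk, if_pos hk]; ring
    · refine Finset.sum_congr rfl fun k hk => ?_
      rw [VP2, if_neg (Finset.mem_compl.1 hk), if_neg (Finset.mem_compl.1 hk)]; ring
  simp_rw [h1]
  rw [Finset.sum_sub_distrib, D, sum_blk Z (fun j => ∑ k, VP2 Z f0 f1 f2 j k * (v j * v k)),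
    Finset.sum_congr rfl A, Finset.sum_congr rfl A', ← Finset.sum_mul, ← Finset.sum_mul]
  ring

theorem ver_IIe (Z : Finset (Fin B)) {r m : ℕ} (hm : Z.card = m) (hr : r + 2 * m = 2 * B)
    {f0 f1 f2 ga gz t : ℝ} (hga : 0 ≤ ga) (hgz : 0 ≤ gz) (n : Mo B) (h0 : n none = 0)
    (D : Bk B → ℝ) (hD : ∀ k, D (some k) = if k ∈ Z then gz / ((nb n (some k) : ℝ) + 2) - f0
      else ga / ((nb n (some k) : ℝ) + 2) - f2)
    (hQ : ∀ x y : ℝ, (r = 0 → x = 0) →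
      0 ≤ (t - f1) * (x + y) ^ 2 + (ga / ((ja Z n : ℝ) + r) - (f2 - f1)) * x ^ 2 +
        (gz / ((lz Z n : ℝ) + 2 * m) - (f0 - f1)) * y ^ 2) (v : Bk B → ℝ) (hv : v none = 0) :
    ∑ j, ∑ k ∈ Finset.univ.erase j, VP2 Z f0 f1 f2 j k * (v j * v k) ≤
      t * (∑ k, v k) ^ 2 + ∑ k, D k * v k ^ 2 := by
  have hmB : m ≤ B := by rw [← hm]; exact card_finset_fin_le Z
  have hN0 : (nb n none : ℝ) = 0 := by
    have : nb n none = 0 := h0
    rw [this, Nat.cast_zero]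
  have hnn : ∀ k : Bk B, (0 : ℝ) ≤ nb n k := fun k => Nat.cast_nonneg _
  have ex : ∑ k ∈ (zb Z)ᶜ, v k = ∑ k ∈ Zᶜ, v (some k) := by
    rw [sum_zbc, hv, zero_add]
  have ey : ∑ k ∈ zb Z, v k = ∑ k ∈ Z, v (some k) := sum_zb Z v
  have ex2 : ∑ k ∈ (zb Z)ᶜ, v k ^ 2 = ∑ k ∈ Zᶜ, v (some k) ^ 2 := by
    rw [sum_zbc Z (fun k => v k ^ 2), hv]
    simp
  have ey2 : ∑ k ∈ zb Z, v k ^ 2 = ∑ k ∈ Z, v (some k) ^ 2 := sum_zb Z (fun k => v k ^ 2)
  have hja : (ja Z n : ℝ) = ∑ k ∈ Zᶜ, (nb n (some k) : ℝ) := by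
    rw [ja, sum_zbc]; push_cast; rw [hN0, zero_add]
  have hlz : (lz Z n : ℝ) = ∑ k ∈ Z, (nb n (some k) : ℝ) := by
    rw [lz, sum_zb]; push_cast; rfl
  have eD : ∑ k, D k * v k ^ 2 =
      (gz * (∑ k ∈ Z, v (some k) ^ 2 / ((nb n (some k) : ℝ) + 2)) -
        f0 * ∑ k ∈ Z, v (some k) ^ 2) +
      (ga * (∑ k ∈ Zᶜ, v (some k) ^ 2 / ((nb n (some k) : ℝ) + 2)) -
        f2 * ∑ k ∈ Zᶜ, v (some k) ^ 2) := by
    rw [sum_blk Z, sum_zb Z (fun k => D k * v k ^ 2), sum_zbc Z (fun k => D k * v k ^ 2), hv,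
      Finset.mul_sum, Finset.mul_sum, Finset.mul_sum, Finset.mul_sum,
      ← Finset.sum_sub_distrib, ← Finset.sum_sub_distrib]
    congr 1
    · refine Finset.sum_congr rfl fun k hk => ?_
      rw [hD, if_pos hk]; ring
    · rw [zero_pow two_ne_zero, mul_zero, zero_add]
      refine Finset.sum_congr rfl fun k hk => ?_
      rw [hD, if_neg (Finset.mem_compl.1 hk)]; ring
  have hca : (∑ k ∈ Zᶜ, v (some k)) ^ 2 / ((ja Z n : ℝ) + r) ≤
      ∑ k ∈ Zᶜ, v (some k) ^ 2 / ((nb n (some k) : ℝ) + 2) := by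
    have h := Finset.sq_sum_div_le_sum_sq_div Zᶜ (fun k => v (some k))
      (g := fun k => (nb n (some k) : ℝ) + 2) (by
        intro k _
        have := hnn (some k)
        linarith)
    have e : ∑ k ∈ Zᶜ, ((nb n (some k) : ℝ) + 2) = (ja Z n : ℝ) + r := by
      rw [Finset.sum_add_distrib, hja, Finset.sum_const, Finset.card_compl, Fintype.card_fin, hm,
        nsmul_eq_mul, Nat.cast_sub hmB]
      have : (r : ℝ) + 2 * m = 2 * B := by exact_mod_cast hr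
      linarith
    rw [e] at h
    exact h
  have hcz : (∑ k ∈ Z, v (some k)) ^ 2 / ((lz Z n : ℝ) + 2 * m) ≤
      ∑ k ∈ Z, v (some k) ^ 2 / ((nb n (some k) : ℝ) + 2) := by
    have h := Finset.sq_sum_div_le_sum_sq_div Z (fun k => v (some k))
      (g := fun k => (nb n (some k) : ℝ) + 2) (by
        intro k _
        have := hnn (some k)
        linarith)
    have e : ∑ k ∈ Z, ((nb n (some k) : ℝ) + 2) = (lz Z n : ℝ) + 2 * m := by
      rw [Finset.sum_add_distrib, hlz, Finset.sum_const, hm, nsmul_eq_mul]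
      ring
    rw [e] at h
    exact h
  have hx0 : r = 0 → ∑ k ∈ Zᶜ, v (some k) = 0 := by
    intro h
    have hmB' : m = B := by omega
    have hc : Zᶜ.card = 0 := by
      rw [Finset.card_compl, Fintype.card_fin, hm, hmB', Nat.sub_self]
    rw [Finset.card_eq_zero.1 hc, Finset.sum_empty]
  have hQ' := hQ (∑ k ∈ Zᶜ, v (some k)) (∑ k ∈ Z, v (some k)) hx0
  have k1 := mul_le_mul_of_nonneg_left hca hga
  have k2 := mul_le_mul_of_nonneg_left hcz hgz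
  rw [dsum, eD, sum_blk Z v, ex, ey, ex2, ey2]
  set x := ∑ k ∈ Zᶜ, v (some k)
  set y := ∑ k ∈ Z, v (some k)
  have e1 : ga / ((ja Z n : ℝ) + r) * x ^ 2 = ga * (x ^ 2 / ((ja Z n : ℝ) + r)) := by ring
  have e2 : gz / ((lz Z n : ℝ) + 2 * m) * y ^ 2 = gz * (y ^ 2 / ((lz Z n : ℝ) + 2 * m)) := by ring
  rw [sub_mul (ga / _), sub_mul (gz / _), e1, e2] at hQ'
  nlinarith [hQ', k1, k2]

end Pool.Agent.H35.SHP
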