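import Mathlib
import Pool.Agent.H35.SHP.EVer

set_option autoImplicit false

/-!
# ELcG: the certificate `LC` at a vertex `Z ≠ univ` from `GoodE`

`m = |Z| < B`, `r = 2B - 2m`, `j = ja Z n`, `l = lz Z n`.  `Dt = Dv Z f0 f2 Ap Am Bp Bm`, `Du = Dw Z …` (`Dw_upo`),
`T n = if j = 2 ∧ l = 0 then t else TT0 f1 Ap Am Bp j l / (j + l - 1)²`, `S = R = 0`.
`hT`: `0 ≤ t`, `0 ≤ TT0` (`j + l = 2q + 2` even, `ja_add_lz`).
`hII`: `p2_vert`, then `ver_IIe` with `ga = Ap (j+2) + Bp l`, `gz = Am j + Bm (l+2)`; `Dv` at `some k` is the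
required one; the quadratic form is `QQf` (as in `ODD.ver_II`, `TT0/(N-1)² = f1 + …`) resp. the form with `t`.
`hI` (`¬ Sg n`): `ver_I` and `cst Z φ n ≤` the cost there (as `cross_le` in `H35/ODD/OCha.lean`; for `m = 0` the
cost is `0`), `p2_vert`, `p1_vert`.  For `j = 2`, `l = 0`: then `q = 0` and not all of the degree is in one plane
(`¬ Sg n`, `n none = 0`), so two planes are outside `Z`, `B - m ≥ 2`, `4 ≤ r`,
`t ≤ 2 f1 - 2 Ap - 2 Am = TT0 f1 Ap Am Bp 2 0`.
`hS` (`Sg n`: all in the plane `k`, `N_k = 2`, charged: `e_k = ±2`, so all `wt n k' = 0`): if `k ∈ Z` (`j = 0`, `l = 2`)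
`ver_I` without the cost; if `k ∉ Z` (`j = 2`, `l = 0`) `own = 2 f2 ≥ t` (`own Z φ n = -p1 (2 - 4)`, `p1 = φ m = f2`).
-/

open Pool.Agent.H89.CZ Pool.Agent.H35.ODD

noncomputable section

namespace Pool.Agent.H35.SHP

variable {B : ℕ}

/-- The coefficient passed to the level below. -/
private def Tn (Z : Finset (Fin B)) (f1 Ap Am Bp t : ℝ) (n : Mo B) : ℝ :=
  if ja Z n = 2 ∧ lz Z n = 0 then t
  else TT0 f1 Ap Am Bp (ja Z n) (lz Z n) / ((ja Z n : ℝ) + lz Z n - 1) ^ 2

private theorem cst_le (Z : Finset (Fin B)) {φ : ℕ → ℝ} {f0 f1 f2 Ap Am Bp Bm : ℝ}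
    (hAp : 0 ≤ Ap) (hAm : 0 ≤ Am) (hBp : 0 ≤ Bp) (hBm : 0 ≤ Bm)
    (h2 : f2 = f1 + Ap - Am) (h0 : f0 = f1 - Bp + Bm)
    (v1 : 1 ≤ Z.card → f1 = φ (Z.card - 1)) (v2 : f2 = φ Z.card)
    (v0 : 2 ≤ Z.card → f0 = φ (Z.card - 2)) (n : Mo B) :
    cst Z φ n ≤ Ap * ∑ k ∈ Zᶜ, eb n k ^ 2 + Bp * ∑ k ∈ Z, eb n k ^ 2 +
        ∑ k ∈ Z, eb n k ^ 2 / nb n (some k) *
          (Am * ∑ l ∈ Zᶜ, (nb n (some l) : ℝ) + Bm * ∑ l ∈ Z.erase k, (nb n (some l) : ℝ)) := by
  unfold cst
  refine add_le_add (add_le_add ?_ ?_) ?_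
  · refine mul_le_mul_of_nonneg_right ?_ (Finset.sum_nonneg fun k _ => sq_nonneg _)
    split_ifs with h1
    · have a1 := v1 h1
      refine max_le hAp ?_
      linarith
    · exact hAp
  · refine mul_le_mul_of_nonneg_right ?_ (Finset.sum_nonneg fun k _ => sq_nonneg _)
    split_ifs with h1
    · have a1 := v1 (by omega)
      have a0 := v0 h1
      refine max_le hBp ?_
      linarith
    · exact hBp
  · refine Finset.sum_le_sum fun k hk => mul_le_mul_of_nonneg_left ?_ (by positivity)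
    have hm : 1 ≤ Z.card := Finset.card_pos.2 ⟨k, hk⟩
    have a1 := v1 hm
    refine add_le_add ?_ ?_
    · refine mul_le_mul_of_nonneg_right ?_ (Finset.sum_nonneg fun k _ => by positivity)
      refine max_le hAm ?_
      linarith
    · rcases Finset.eq_empty_or_nonempty (Z.erase k) with h | h
      · rw [h]
        simp
      · refine mul_le_mul_of_nonneg_right ?_ (Finset.sum_nonneg fun k _ => by positivity)
        have h3 := Finset.card_pos.2 h
        rw [Finset.card_erase_of_mem hk] at h3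
        have a0 := v0 (by omega)
        refine max_le hBm ?_
        linarith

/-- Degree `(2, 0)` not in one plane: there are two planes outside `Z`. -/
private theorem two_out (Z : Finset (Fin B)) (hm : Z.card < B) (n : Mo B) (hj : ja Z n = 2)
    (hl : lz Z n = 0) (h0 : n none = 0) (hS : ¬ Sg n) : 4 ≤ 2 * B - 2 * Z.card := by
  by_contra hcon
  have h1 : (Zᶜ).card = 1 := by
    rw [Finset.card_compl, Fintype.card_fin]
    omega
  obtain ⟨k0, hk0⟩ := Finset.card_eq_one.1 h1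
  have hz : ∀ a : Fin B, a ≠ k0 → a ∈ Z := by
    intro a ha
    by_contra h
    have : a ∈ Zᶜ := Finset.mem_compl.2 h
    rw [hk0, Finset.mem_singleton] at this
    exact ha this
  have hk0' : k0 ∉ Z := by
    have : k0 ∈ Zᶜ := by rw [hk0]; exact Finset.mem_singleton_self _
    exact Finset.mem_compl.1 this
  have hc : (zb Z)ᶜ = {none, some k0} := by
    ext k
    rcases k with _ | a
    · simp [zb]
    · by_cases ha : a = k0
      · subst ha
        simp [zb, hk0']
      · simp [zb, ha, hz a ha]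
  have hz0 : ∀ k ∈ zb Z, nb n k = 0 := by
    intro k hk
    rw [lz, Finset.sum_eq_zero_iff] at hl
    exact hl k hk
  have hn0 : nb n none = 0 := h0
  refine hS ⟨k0, ?_, ?_⟩
  · rw [ja, hc, Finset.sum_pair (by simp), hn0, zero_add] at hj
    exact hj
  · intro l hl'
    rcases l with _ | a
    · exact hn0
    · refine hz0 _ ?_
      have : a ≠ k0 := fun h => hl' (by rw [h])
      simp [zb, hz a this]

theorem lc_good (Z : Finset (Fin B)) (φ : ℕ → ℝ) (hm : Z.card < B) {f0 f1 f2 : ℝ}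
    (hG : GoodE (2 * B - 2 * Z.card) Z.card f0 f1 f2) (h : AtV φ Z.card f0 f1 f2) :
    ∃ (T : Mo B → ℝ) (Dt Du : Mo B → Bk B → ℝ), LC Z φ T (fun _ => 0) (fun _ => 0) Dt Du := by
  obtain ⟨Ap, Am, Bp, Bm, t, hAp, hAm, hBp, hBm, ht, e2, e0, ht4, ht2, hq2, hq⟩ := hG
  obtain ⟨v1, v2, v0⟩ := h
  have hP2 : ∀ g : Bk B → Bk B → ℝ, ∑ j, ∑ k ∈ Finset.univ.erase j, p2 φ Z j k * g j k =
      ∑ j, ∑ k ∈ Finset.univ.erase j, VP2 Z f0 f1 f2 j k * g j k := by
    intro g
    refine Finset.sum_congr rfl fun j _ => Finset.sum_congr rfl fun k hk => ?_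
    rw [p2_vert Z φ v1 (fun _ => v2) v0 (Finset.ne_of_mem_erase hk).symm]
  have hown : ∀ n : Mo B, own Z φ n =
      ∑ j, ∑ k ∈ Finset.univ.erase j, VP2 Z f0 f1 f2 j k * ((nb n j : ℝ) * nb n k) -
      ∑ k, VP1 Z f1 f2 k * ((nb n (some k) : ℝ) - eb n k ^ 2) := by
    intro n
    unfold own
    rw [hP2 (fun j k => (nb n j : ℝ) * nb n k)]
    congr 1
    refine Finset.sum_congr rfl fun k _ => ?_
    rw [p1_vert Z φ v1 (fun _ => v2)]
  have hNR : ∀ (q : ℕ) (n : Mo B), n ∈ levo B (2 * q + 2) →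
      (ja Z n : ℝ) + lz Z n - 1 = 2 * (q : ℝ) + 1 := by
    intro q n hn
    have h := ja_add_lz Z hn
    have h' : (ja Z n : ℝ) + lz Z n = ((2 * q + 2 : ℕ) : ℝ) := by exact_mod_cast h
    rw [h']
    push_cast
    ring
  have hqn : ∀ (q : ℕ) (n : Mo B), n ∈ levo B (2 * q + 2) → ¬ (ja Z n = 2 ∧ lz Z n = 0) →
      0 ≤ TT0 f1 Ap Am Bp (ja Z n) (lz Z n) ∧ ∀ x y : ℝ,
        0 ≤ QQf (2 * B - 2 * Z.card) Z.card f1 Ap Am Bp Bm (ja Z n) (lz Z n) x y := by
    intro q n hn h
    have h1 := ja_add_lz Z hn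
    refine hq _ _ ?_ (by omega) h
    rw [h1]
    exact ⟨q + 1, by ring⟩
  refine ⟨Tn Z f1 Ap Am Bp t, Dv Z f0 f2 Ap Am Bp Bm, Dw Z f0 f2 Ap Am Bp Bm, ?_, ?_, ?_, ?_, ?_⟩
  · intro n k
    exact Dw_upo Z f0 f2 Ap Am Bp Bm n k
  · intro q n hn _
    unfold Tn
    split_ifs with hc
    · exact ht
    · exact div_nonneg (hqn q n hn hc).1 (sq_nonneg _)
  · intro q n hn hn0 _ hS
    have h1 := ver_I Z hAp hAm hBp hBm e2 e0 n
    have h2 := cst_le Z hAp hAm hBp hBm e2 e0 v1 v2 v0 n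
    have h3 : (2 * (q : ℝ) + 1) ^ 2 * Tn Z f1 Ap Am Bp t n ≤
        TT0 f1 Ap Am Bp (ja Z n) (lz Z n) := by
      unfold Tn
      split_ifs with hc
      · have h4 := ja_add_lz Z hn
        have hq0 : q = 0 := by omega
        have h5 := ht4 (two_out Z hm n hc.1 hc.2 hn0 hS)
        rw [hc.1, hc.2, hq0, TT0]
        push_cast
        linarith
      · rw [hNR q n hn]
        have h6 : (2 * (q : ℝ) + 1) ^ 2 ≠ 0 := by positivity
        rw [mul_div_cancel₀ _ h6]
    rw [hown]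
    linarith
  · intro n hn hn0 hch hS
    obtain ⟨k, hk2, hk0⟩ := hS
    have hnb0 : ∀ l : Fin B, l ≠ k → nb n (some l) = 0 := fun l hl =>
      hk0 (some l) (fun h => hl (Option.some.inj h))
    have heb0 : ∀ l : Fin B, l ≠ k → eb n l = 0 := by
      intro l hl
      have h1 := abs_eb_le n l
      rw [hnb0 l hl, Nat.cast_zero] at h1
      exact abs_eq_zero.1 (le_antisymm h1 (abs_nonneg _))
    have hebk : eb n k ^ 2 = 4 := by
      obtain ⟨l, hl⟩ := hch
      have hlk : l = k := by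
        by_contra h
        exact hl (heb0 l h)
      subst hlk
      have h1 : n (some (l, true)) + n (some (l, false)) = 2 := hk2
      have h2 : n (some (l, true)) ≠ n (some (l, false)) := by
        intro h
        apply hl
        unfold eb
        rw [h, sub_self]
      have h3 : (n (some (l, true)) = 2 ∧ n (some (l, false)) = 0) ∨
          (n (some (l, true)) = 0 ∧ n (some (l, false)) = 2) := by omega
      unfold eb
      rcases h3 with ⟨h4, h5⟩ | ⟨h4, h5⟩
      · rw [h4, h5]; norm_num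
      · rw [h4, h5]; norm_num
    have hwt : ∀ l : Bk B, wt n l = 0 := by
      intro l
      rcases l with _ | a
      · simp [wt, hn0]
      · by_cases ha : a = k
        · subst ha
          rw [wt, hk2, hebk]
          norm_num
        · rw [wt, hnb0 a ha, heb0 a ha]
          norm_num
    have hsum0 : ∑ l, wt n l * Dw Z f0 f2 Ap Am Bp Bm n l = 0 :=
      Finset.sum_eq_zero fun l _ => by rw [hwt l, zero_mul]
    have hown2 : own Z φ n = 2 * VP1 Z f1 f2 k := by
      rw [hown]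
      have a1 : ∑ j, ∑ k ∈ Finset.univ.erase j,
          VP2 Z f0 f1 f2 j k * ((nb n j : ℝ) * nb n k) = 0 := by
        refine Finset.sum_eq_zero fun i _ => Finset.sum_eq_zero fun l hl => ?_
        by_cases hi : i = some k
        · have hl' : l ≠ some k := fun h => (Finset.ne_of_mem_erase hl) (h.trans hi.symm)
          rw [hk0 l hl']
          simp
        · rw [hk0 i hi]
          simp
      have a2 : ∑ l, VP1 Z f1 f2 l * ((nb n (some l) : ℝ) - eb n l ^ 2) =
          VP1 Z f1 f2 k * ((nb n (some k) : ℝ) - eb n k ^ 2) := by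
        refine Finset.sum_eq_single k (fun l _ hl => ?_) (fun h => absurd (Finset.mem_univ _) h)
        rw [hnb0 l hl, heb0 l hl]
        simp
      rw [a1, a2, hk2, hebk]
      push_cast
      ring
    have hja : ja Z n = if k ∈ Z then 0 else 2 := by
      rw [ja]
      by_cases hkZ : k ∈ Z
      · rw [if_pos hkZ]
        refine Finset.sum_eq_zero fun l hl => hk0 l ?_
        rintro rfl
        exact (Finset.mem_compl.1 hl) (by simp [zb, hkZ])
      · rw [if_neg hkZ, ← hk2]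
        refine Finset.sum_eq_single (some k) (fun l _ hl => hk0 l hl) (fun h => ?_)
        exact absurd (Finset.mem_compl.2 (by simp [zb, hkZ])) h
    have hjl := ja_add_lz Z hn
    rw [hown2, hsum0]
    by_cases hkZ : k ∈ Z
    · rw [if_pos hkZ] at hja
      have hl2 : lz Z n = 2 := by omega
      rw [Tn, if_neg (by rw [hja]; simp), hja, hl2, TT0, VP1, if_pos hkZ]
      norm_num
      linarith
    · rw [if_neg hkZ] at hja
      have hl0 : lz Z n = 0 := by omega
      rw [Tn, if_pos ⟨hja, hl0⟩, VP1, if_neg hkZ]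
      linarith
  · intro q n hn hn0 v hv
    have hr : (2 * B - 2 * Z.card) + 2 * Z.card = 2 * B := by omega
    have hcast : ((2 * B - 2 * Z.card : ℕ) : ℝ) = (2 * B - 2 * Z.card : ℕ) := rfl
    rw [hP2 (fun j k => v j * v k), add_zero]
    have hj0 : (0 : ℝ) ≤ ja Z n := Nat.cast_nonneg _
    have hl0 : (0 : ℝ) ≤ lz Z n := Nat.cast_nonneg _
    refine ver_IIe Z (r := 2 * B - 2 * Z.card) (m := Z.card) rfl hr
      (ga := Ap * (ja Z n + 2) + Bp * lz Z n) (gz := Am * ja Z n + Bm * (lz Z n + 2))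
      (by positivity) (by positivity) n hn0 _ ?_ ?_ v hv
    · intro k
      unfold Dv
      by_cases hk : k ∈ Z
      · rw [if_pos (by simp [zb, hk]), if_pos hk]
      · rw [if_neg (by simp [zb, hk]), if_neg hk, if_neg (by simp)]
    · intro x y _
      unfold Tn
      split_ifs with hc
      · have h1 := hq2 x y
        rw [hc.1, hc.2, e2, e0]
        have e3 : (t - f1) * (x + y) ^ 2 +
            ((Ap * (((2 : ℕ) : ℝ) + 2) + Bp * ((0 : ℕ) : ℝ)) /
              (((2 : ℕ) : ℝ) + ((2 * B - 2 * Z.card : ℕ) : ℝ)) - (f1 + Ap - Am - f1)) * x ^ 2 +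
            ((Am * ((2 : ℕ) : ℝ) + Bm * (((0 : ℕ) : ℝ) + 2)) / (((0 : ℕ) : ℝ) + 2 * (Z.card : ℝ)) -
              (f1 - Bp + Bm - f1)) * y ^ 2 =
            (t - f1) * (x + y) ^ 2 +
            (4 * Ap / (2 + ((2 * B - 2 * Z.card : ℕ) : ℝ)) - (Ap - Am)) * x ^ 2 +
            ((2 * Am + 2 * Bm) / (2 * (Z.card : ℝ)) + (Bp - Bm)) * y ^ 2 := by
          push_cast
          ring
        rw [e3]
        exact h1
      · have h1 := (hqn q n hn hc).2 x y
        have hN1 : (ja Z n : ℝ) + lz Z n - 1 ≠ 0 := by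
          rw [hNR q n hn]
          positivity
        have hT : TT0 f1 Ap Am Bp (ja Z n) (lz Z n) / ((ja Z n : ℝ) + lz Z n - 1) ^ 2 - f1 =
            (f1 * ((ja Z n : ℝ) + lz Z n - 1) - Ap * ja Z n -
              Am * ja Z n * ((ja Z n : ℝ) + lz Z n - 1) -
              Bp * lz Z n * ((ja Z n : ℝ) + lz Z n)) / ((ja Z n : ℝ) + lz Z n - 1) ^ 2 := by
          rw [TT0]
          field_simp
          ring
        rw [QQf] at h1
        rw [hT, e2, e0]
        have e3 : f1 + Ap - Am - f1 = Ap - Am := by ring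
        have e4 : f1 - Bp + Bm - f1 = -(Bp - Bm) := by ring
        rw [e3, e4, sub_neg_eq_add]
        exact h1

end Pool.Agent.H35.SHP
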