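import Mathlib
import Pool.Agent.H35.SHP.EVer

set_option autoImplicit false

/-!
# ELcU: the certificates at `Z = univ` (`B ≥ 2`, `f1 = φ (B-1)`, `f0 = φ (B-2)`, `|univ| = B`)

`lc_exact` (`f0 ≤ f1`): `T = 0`, `S = f0`, `R n = f0 N² - f1 N` (`N = dg n`), `Dt = Du = -f0`.
`hII` is an identity: all pairs have coefficient `f0` except those with the line, where `v = 0`:
`∑_{j≠k} f0 v_j v_k = f0 (∑ v)² - f0 ∑ v²`.  `hI`: `own = f0 (N² - ∑ N_k²) - f1 (N - ∑ e_k²)`,
`cst = (f1 - f0) ∑ e_k²` (`univᶜ = ∅`, `max 0 (f0 - f1) = 0`), `∑ wt = ∑ (N_k² - e_k²)` (`n none = 0`, so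
`wt n none = 0`): equality.  `hS`: the same without `cst ≥ 0`.
`lc_mm` (`f1 ≤ f0`, `(2B-2) f0 ≤ (2B-1) f1`): `Bm = f0 - f1`: `Dt n k = Bm (l+2)/(N_k+2) - f0`,
`Du n k = Bm l/N_k - f0` for `k = some _` (`l = dg n`; `Dv univ f0 f2 0 0 0 Bm`, `Dw univ …` with `f2 = f1`),
`T n = f1 N (N-1)/(N-1)²` (`= TT0 f1 0 0 0 0 N/(N-1)²`), `S = R = 0`; `hII`: `ver_IIe` with `r = 0`, `m = B`:
`f1/(N-1) + Bm (N+2)/(N+2B) - Bm ≥ 0` as `(N+2B) f1 ≥ Bm (2B-2)(N-1)`; `hI`, `hS`: `ver_I` with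
`Ap = Am = Bp = 0`, `cst = ∑ e_k²/N_k Bm ∑_{l ≠ k} N_l`.
-/

open Pool.Agent.H89.CZ Pool.Agent.H35.ODD

noncomputable section

namespace Pool.Agent.H35.SHP

variable {B : ℕ}

private theorem p2_univ (φ : ℕ → ℝ) {a b : Fin B} (h : a ≠ b) :
    p2 φ (Finset.univ : Finset (Fin B)) (some a) (some b) = φ (B - 2) := by
  simp [p2, rmv, Finset.card_erase_of_mem (Finset.mem_erase.2 ⟨h.symm, Finset.mem_univ b⟩),
    Nat.sub_sub]

private theorem p1_univ (φ : ℕ → ℝ) (a : Fin B) :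
    p1 φ (Finset.univ : Finset (Fin B)) a = φ (B - 1) := by
  simp [p1]

/-- The double sum for a function which vanishes at the line. -/
private theorem dsu (φ : ℕ → ℝ) (v : Bk B → ℝ) (hv : v none = 0) :
    ∑ j, ∑ k ∈ Finset.univ.erase j, p2 φ (Finset.univ : Finset (Fin B)) j k * (v j * v k) =
      φ (B - 2) * ((∑ k, v k) ^ 2 - ∑ k, v k ^ 2) := by
  have h1 : ∀ j : Bk B, ∑ k ∈ Finset.univ.erase j,
      p2 φ (Finset.univ : Finset (Fin B)) j k * (v j * v k) =
      φ (B - 2) * v j * (∑ k, v k) - φ (B - 2) * v j ^ 2 := by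
    intro j
    have e : ∀ k ∈ Finset.univ.erase j, p2 φ (Finset.univ : Finset (Fin B)) j k * (v j * v k) =
        φ (B - 2) * v j * v k := by
      intro k hk
      have hjk : k ≠ j := Finset.ne_of_mem_erase hk
      rcases j with _ | a
      · rw [hv]; ring
      · rcases k with _ | b
        · rw [hv]; ring
        · rw [p2_univ φ (fun h => hjk (by rw [h]))]; ring
    rw [Finset.sum_congr rfl e, ← Finset.mul_sum, Finset.sum_erase_eq_sub (Finset.mem_univ j)]
    ring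
  rw [Finset.sum_congr rfl fun j _ => h1 j, Finset.sum_sub_distrib, ← Finset.sum_mul,
    ← Finset.mul_sum, ← Finset.mul_sum]
  ring

private theorem nb_none {n : Mo B} (h : n none = 0) : (nb n none : ℝ) = 0 := by
  simp [nb, h]

/-- The own coefficient. -/
private theorem own_univ (φ : ℕ → ℝ) {n : Mo B} (h : n none = 0) :
    own (Finset.univ : Finset (Fin B)) φ n =
      φ (B - 2) * (dg n ^ 2 - ∑ k : Fin B, (nb n (some k) : ℝ) ^ 2) -
        φ (B - 1) * (dg n - ∑ k : Fin B, eb n k ^ 2) := by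
  have hd : dg n = ∑ k : Fin B, (nb n (some k) : ℝ) := by
    rw [dg, Fintype.sum_option, nb_none h, zero_add]
  rw [own, dsu φ (fun k => (nb n k : ℝ)) (nb_none h)]
  have e : ∑ k : Bk B, (nb n k : ℝ) ^ 2 = ∑ k : Fin B, (nb n (some k) : ℝ) ^ 2 := by
    rw [Fintype.sum_option, nb_none h]; ring
  have e1 : ∑ k : Fin B, p1 φ (Finset.univ : Finset (Fin B)) k * ((nb n (some k) : ℝ) - eb n k ^ 2) =
      φ (B - 1) * (dg n - ∑ k : Fin B, eb n k ^ 2) := by
    rw [hd, ← Finset.sum_sub_distrib, Finset.mul_sum]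
    exact Finset.sum_congr rfl fun k _ => by rw [p1_univ]
  rw [e1, e, ← dg]

private theorem sum_wt {n : Mo B} (h : n none = 0) :
    ∑ k, wt n k = ∑ k : Fin B, (nb n (some k) : ℝ) ^ 2 - ∑ k : Fin B, eb n k ^ 2 := by
  rw [Fintype.sum_option, ← Finset.sum_sub_distrib]
  simp [wt, h]

/-- The cost at `univ`. -/
private theorem cst_univ (hB : 2 ≤ B) (φ : ℕ → ℝ) (n : Mo B) :
    cst (Finset.univ : Finset (Fin B)) φ n =
      max 0 (φ (B - 1) - φ (B - 2)) * ∑ k : Fin B, eb n k ^ 2 +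
        ∑ k : Fin B, eb n k ^ 2 / nb n (some k) *
          (max 0 (φ (B - 2) - φ (B - 1)) * ∑ l ∈ Finset.univ.erase k, (nb n (some l) : ℝ)) := by
  rw [cst]
  simp only [Finset.compl_univ, Finset.sum_empty, mul_zero, zero_add, Finset.card_univ,
    Fintype.card_fin, if_pos hB]

theorem lc_exact (hB : 2 ≤ B) (φ : ℕ → ℝ) (h : φ (B - 2) ≤ φ (B - 1)) :
    LC (Finset.univ : Finset (Fin B)) φ (fun _ => 0) (fun _ => φ (B - 2))
      (fun n => φ (B - 2) * dg n ^ 2 - φ (B - 1) * dg n) (fun _ _ => -φ (B - 2))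
      (fun _ _ => -φ (B - 2)) := by
  refine ⟨fun _ _ => rfl, fun _ _ _ _ => le_refl _, ?_, ?_, ?_⟩
  · intro q n _ h0 _ _
    rw [own_univ φ h0, cst_univ hB, ← Finset.sum_mul, sum_wt h0, max_eq_right (by linarith),
      max_eq_left (by linarith)]
    simp only [zero_mul, mul_zero, Finset.sum_const_zero, add_zero]
    apply le_of_eq
    ring
  · intro n _ h0 _ _
    rw [own_univ φ h0, ← Finset.sum_mul, sum_wt h0]
    have : 0 ≤ (φ (B - 1) - φ (B - 2)) * ∑ k : Fin B, eb n k ^ 2 :=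
      mul_nonneg (by linarith) (Finset.sum_nonneg fun k _ => sq_nonneg _)
    nlinarith
  · intro q n _ _ v hv
    rw [dsu φ v hv, ← Finset.mul_sum]
    apply le_of_eq
    ring

theorem lc_mm (hB : 2 ≤ B) (φ : ℕ → ℝ) (h1 : 0 ≤ φ (B - 1)) (h : φ (B - 1) ≤ φ (B - 2))
    (h' : (2 * (B : ℝ) - 2) * φ (B - 2) ≤ (2 * B - 1) * φ (B - 1)) :
    ∃ (T : Mo B → ℝ) (Dt Du : Mo B → Bk B → ℝ),
      LC (Finset.univ : Finset (Fin B)) φ T (fun _ => 0) (fun _ => 0) Dt Du := by
  have hcard : (Finset.univ : Finset (Fin B)).card = B := by simp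
  have hBm : 0 ≤ φ (B - 2) - φ (B - 1) := by linarith
  have hV2 : ∀ {j k : Bk B}, j ≠ k → p2 φ (Finset.univ : Finset (Fin B)) j k =
      VP2 Finset.univ (φ (B - 2)) (φ (B - 1)) (φ (B - 1)) j k := fun {j k} hjk =>
    p2_vert Finset.univ φ (fun _ => by rw [hcard]) (fun h => absurd h (by rw [hcard]; omega))
      (fun _ => by rw [hcard]) hjk
  have hV1 : ∀ k : Fin B, p1 φ (Finset.univ : Finset (Fin B)) k =
      VP1 Finset.univ (φ (B - 1)) (φ (B - 1)) k := fun k =>
    p1_vert Finset.univ φ (fun _ => by rw [hcard]) (fun h => absurd h (by rw [hcard]; omega)) k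
  have hown : ∀ n : Mo B, own (Finset.univ : Finset (Fin B)) φ n =
      ∑ j, ∑ k ∈ Finset.univ.erase j, VP2 Finset.univ (φ (B - 2)) (φ (B - 1)) (φ (B - 1)) j k *
        ((nb n j : ℝ) * nb n k) -
      ∑ k, VP1 Finset.univ (φ (B - 1)) (φ (B - 1)) k * ((nb n (some k) : ℝ) - eb n k ^ 2) := by
    intro n
    rw [own]
    congr 1
    · refine Finset.sum_congr rfl fun j _ => Finset.sum_congr rfl fun k hk => ?_
      rw [hV2 (Finset.ne_of_mem_erase hk).symm]
    · exact Finset.sum_congr rfl fun k _ => by rw [hV1]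
  have hI : ∀ n : Mo B, TT0 (φ (B - 1)) 0 0 0 (ja Finset.univ n) (lz Finset.univ n) +
      ∑ k, wt n k * Dw Finset.univ (φ (B - 2)) (φ (B - 1)) 0 0 0 (φ (B - 2) - φ (B - 1)) n k +
      cst Finset.univ φ n ≤ own Finset.univ φ n := by
    intro n
    have h2 := ver_I (Finset.univ : Finset (Fin B)) (f0 := φ (B - 2)) (f1 := φ (B - 1))
      (f2 := φ (B - 1)) (Ap := 0) (Am := 0) (Bp := 0) (Bm := φ (B - 2) - φ (B - 1)) le_rfl le_rfl
      le_rfl hBm (by ring) (by ring) n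
    rw [hown, cst_univ hB, max_eq_left (by linarith), max_eq_right hBm]
    simpa only [zero_mul, zero_add] using h2
  have hcst : ∀ n : Mo B, 0 ≤ cst Finset.univ φ n := by
    intro n
    rw [cst_univ hB]
    refine add_nonneg (mul_nonneg (le_max_left _ _) (Finset.sum_nonneg fun k _ => sq_nonneg _))
      (Finset.sum_nonneg fun k _ => ?_)
    exact mul_nonneg (div_nonneg (sq_nonneg _) (Nat.cast_nonneg _))
      (mul_nonneg (le_max_left _ _) (Finset.sum_nonneg fun l _ => Nat.cast_nonneg _))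
  have hN : ∀ (q : ℕ) (n : Mo B), n ∈ levo B (2 * q + 2) →
      (ja Finset.univ n : ℝ) + lz Finset.univ n = 2 * q + 2 := by
    intro q n hn
    exact_mod_cast ja_add_lz Finset.univ hn
  have hja : ∀ n : Mo B, n none = 0 → (ja Finset.univ n : ℝ) = 0 := by
    intro n h0
    have e : (zb (Finset.univ : Finset (Fin B)))ᶜ = {none} := by
      ext k
      cases k <;> simp [zb]
    rw [ja, e, Finset.sum_singleton]
    exact nb_none h0
  refine ⟨fun n => TT0 (φ (B - 1)) 0 0 0 (ja Finset.univ n) (lz Finset.univ n) /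
      ((ja Finset.univ n : ℝ) + lz Finset.univ n - 1) ^ 2,
    Dv Finset.univ (φ (B - 2)) (φ (B - 1)) 0 0 0 (φ (B - 2) - φ (B - 1)),
    Dw Finset.univ (φ (B - 2)) (φ (B - 1)) 0 0 0 (φ (B - 2) - φ (B - 1)), ?_, ?_, ?_, ?_, ?_⟩
  · intro n k
    exact Dw_upo _ _ _ _ _ _ _ n k
  · intro q n hn _
    refine div_nonneg ?_ (sq_nonneg _)
    rw [TT0, hN q n hn]
    have hq : (0 : ℝ) ≤ q := Nat.cast_nonneg q
    have : 0 ≤ φ (B - 1) * (2 * (q : ℝ) + 2) * (2 * q + 2 - 1) :=
      mul_nonneg (mul_nonneg h1 (by positivity)) (by linarith)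
    linarith
  · intro q n hn _ _ _
    have h := hI n
    have e : (2 * (q : ℝ) + 1) ^ 2 * (TT0 (φ (B - 1)) 0 0 0 (ja Finset.univ n) (lz Finset.univ n) /
        ((ja Finset.univ n : ℝ) + lz Finset.univ n - 1) ^ 2) =
        TT0 (φ (B - 1)) 0 0 0 (ja Finset.univ n) (lz Finset.univ n) := by
      rw [hN q n hn]
      have : (2 * (q : ℝ) + 1) ≠ 0 := by positivity
      have e2 : (2 * (q : ℝ) + 2 - 1) = 2 * q + 1 := by ring
      rw [e2]
      field_simp
    rw [e]
    linarith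
  · intro n hn _ _ _
    have h := hI n
    have hc := hcst n
    have e : TT0 (φ (B - 1)) 0 0 0 (ja Finset.univ n) (lz Finset.univ n) /
        ((ja Finset.univ n : ℝ) + lz Finset.univ n - 1) ^ 2 =
        TT0 (φ (B - 1)) 0 0 0 (ja Finset.univ n) (lz Finset.univ n) := by
      have h2 := hN 0 n (by simpa using hn)
      rw [h2]
      norm_num
    rw [e]
    linarith
  · intro q n hn h0 v hv
    have e : ∑ j, ∑ k ∈ Finset.univ.erase j, p2 φ (Finset.univ : Finset (Fin B)) j k * (v j * v k) =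
        ∑ j, ∑ k ∈ Finset.univ.erase j,
          VP2 Finset.univ (φ (B - 2)) (φ (B - 1)) (φ (B - 1)) j k * (v j * v k) := by
      refine Finset.sum_congr rfl fun j _ => Finset.sum_congr rfl fun k hk => ?_
      rw [hV2 (Finset.ne_of_mem_erase hk).symm]
    rw [e, add_zero]
    refine ver_IIe Finset.univ (r := 0) (m := B) hcard (by ring) (ga := 0)
      (gz := (φ (B - 2) - φ (B - 1)) * (lz Finset.univ n + 2)) le_rfl (by positivity) n h0 _ ?_ ?_ v hv
    · intro k
      rw [if_pos (Finset.mem_univ k), Dv, if_pos (by simp [zb])]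
      ring
    · intro x y hx
      rw [hx rfl]
      have hq : (0 : ℝ) ≤ q := Nat.cast_nonneg q
      have hl : (lz Finset.univ n : ℝ) = 2 * q + 2 := by
        have := hN q n hn
        rw [hja n h0] at this
        linarith
      have hBr : (2 : ℝ) ≤ B := by exact_mod_cast hB
      have hk : 0 ≤ TT0 (φ (B - 1)) 0 0 0 (ja Finset.univ n) (lz Finset.univ n) /
          ((ja Finset.univ n : ℝ) + lz Finset.univ n - 1) ^ 2 - φ (B - 1) +
          ((φ (B - 2) - φ (B - 1)) * (lz Finset.univ n + 2) / ((lz Finset.univ n : ℝ) + 2 * B) -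
            (φ (B - 2) - φ (B - 1))) := by
        rw [TT0, hja n h0, hl]
        have p1 : (0 : ℝ) < 2 * q + 1 := by positivity
        have p2 : (0 : ℝ) < 2 * q + 2 + 2 * B := by positivity
        have e1 : (φ (B - 1) * (0 + (2 * (q : ℝ) + 2)) * (0 + (2 * q + 2) - 1) - 0 * 0 -
            0 * 0 * (0 + (2 * q + 2) - 1) - 0 * (2 * q + 2) * (0 + (2 * q + 2))) /
            (0 + (2 * q + 2) - 1) ^ 2 - φ (B - 1) = φ (B - 1) / (2 * q + 1) := by
          have : (0 + (2 * (q : ℝ) + 2) - 1) = 2 * q + 1 := by ring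
          rw [this]
          field_simp
          ring
        have e2 : (φ (B - 2) - φ (B - 1)) * (2 * (q : ℝ) + 2 + 2) / (2 * q + 2 + 2 * B) -
            (φ (B - 2) - φ (B - 1)) =
            -((φ (B - 2) - φ (B - 1)) * (2 * B - 2)) / (2 * q + 2 + 2 * B) := by
          field_simp
          ring
        rw [e1, e2, div_add_div _ _ p1.ne' p2.ne']
        refine div_nonneg ?_ (by positivity)
        have h3 : (φ (B - 2) - φ (B - 1)) * (2 * B - 2) ≤ φ (B - 1) := by linarith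
        have h4 := mul_le_mul_of_nonneg_left h3 p1.le
        have h5 : 0 ≤ φ (B - 1) * (2 * B + 1) := mul_nonneg h1 (by positivity)
        nlinarith
      have := mul_nonneg hk (sq_nonneg y)
      nlinarith [this]

end Pool.Agent.H35.SHP
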