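import Mathlib
import Pool.Agent.H35.SHP.EAbs
import Pool.Agent.H35.ODD.OVer

set_option autoImplicit false

/-!
# ENeU: the charge-free modes at `Z = univ`, exact

`abs_low` with `T = 0`, `S = f0`, `R n = f0 N² - f1 N` (`N = dg n`), `Dt = Du = -f0`.  As `eb = 0`:
`cn = f0 (N² - ∑ N_k²) - f1 N`, `∑ wt = ∑ N_k²` (`n none = 0`); `VP2 univ f0 f1 f2 (some j) (some k) = f0`,
`VP1 univ f1 f2 k = f1`, pairs with the line: `v none = 0`, `nb n none = 0`.  (0): `∑ v = 0`.
-/

open Pool.Agent.H89.CZ Pool.Agent.H35.ODD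

noncomputable section

namespace Pool.Agent.H35.SHP

variable {B : ℕ}

/-- The double sum for a function which vanishes at the line. -/
private theorem dsv (f0 f1 f2 : ℝ) (v : Bk B → ℝ) (hv : v none = 0) :
    ∑ j, ∑ k ∈ Finset.univ.erase j, VP2 (Finset.univ : Finset (Fin B)) f0 f1 f2 j k * (v j * v k) =
      f0 * ((∑ k, v k) ^ 2 - ∑ k, v k ^ 2) := by
  have h1 : ∀ j : Bk B, ∑ k ∈ Finset.univ.erase j,
      VP2 (Finset.univ : Finset (Fin B)) f0 f1 f2 j k * (v j * v k) =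
      f0 * v j * (∑ k, v k) - f0 * v j ^ 2 := by
    intro j
    have e : ∀ k ∈ Finset.univ.erase j,
        VP2 (Finset.univ : Finset (Fin B)) f0 f1 f2 j k * (v j * v k) = f0 * v j * v k := by
      intro k _
      rcases j with _ | a
      · rw [hv]; ring
      · rcases k with _ | b
        · rw [hv]; ring
        · rw [VP2, if_pos (by simp [zb]), if_pos (by simp [zb])]; ring
    rw [Finset.sum_congr rfl e, ← Finset.mul_sum, Finset.sum_erase_eq_sub (Finset.mem_univ j)]
    ring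
  rw [Finset.sum_congr rfl fun j _ => h1 j, Finset.sum_sub_distrib, ← Finset.sum_mul,
    ← Finset.mul_sum, ← Finset.mul_sum]
  ring

private theorem nbn {n : Mo B} (h : n none = 0) : (nb n none : ℝ) = 0 := by
  simp [nb, h]

theorem neu_univ {f0 f1 f2 : ℝ} (M : ℕ) (F : Mo B → ℂ) (hF : ∀ n, F n = ∑ k, F (upo n k))
    (hN : NL F) (hz : F 0 = 0) :
    Kp (fun _ => f0) (fun n => f0 * dg n ^ 2 - f1 * dg n) M F (fun n => ¬ ∃ k, eb n k ≠ 0) ≤
      Qf (VP2 (Finset.univ : Finset (Fin B)) f0 f1 f2) (VP1 Finset.univ f1 f2) (fun _ _ => 0) M F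
        (fun n => ¬ ∃ k, eb n k ≠ 0) := by
  refine abs_low (VP2 (Finset.univ : Finset (Fin B)) f0 f1 f2) (VP1 Finset.univ f1 f2)
    (fun _ _ => 0) M F hF hN _ ?_ (fun _ => 0) (fun _ => f0) (fun n => f0 * dg n ^ 2 - f1 * dg n)
    (fun _ _ => -f0) (fun _ _ => -f0) ?_ ?_ ?_ ?_ ?_
  · intro n k
    simp only [eb_upo]
  · intro n k
    rfl
  · intro q n _ _ _
    exact le_rfl
  · intro q n hn hp h0
    have he : ∀ k, eb n k = 0 := by
      intro k
      by_contra hk
      exact hp ⟨k, hk⟩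
    have hd : dg n = ∑ k : Fin B, (nb n (some k) : ℝ) := by
      rw [dg, Fintype.sum_option, nbn h0, zero_add]
    have hw : ∑ k, wt n k = ∑ k : Bk B, (nb n k : ℝ) ^ 2 := by
      rw [Fintype.sum_option, Fintype.sum_option, nbn h0]
      simp [wt, h0, he]
    have hp1 : ∑ k : Fin B, VP1 (Finset.univ : Finset (Fin B)) f1 f2 k *
        ((nb n (some k) : ℝ) - eb n k ^ 2) = f1 * dg n := by
      rw [hd, Finset.mul_sum]
      refine Finset.sum_congr rfl fun k _ => ?_
      rw [VP1, if_pos (Finset.mem_univ k), he k]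
      ring
    unfold cn
    rw [dsv f0 f1 f2 (fun k => (nb n k : ℝ)) (nbn h0), hp1, ← Finset.sum_mul, hw, ← dg]
    simp only [zero_mul, mul_zero, Finset.sum_const_zero, add_zero]
    apply le_of_eq
    ring
  · intro q n _ _ _ v hv
    rw [dsv f0 f1 f2 v hv, ← Finset.mul_sum]
    apply le_of_eq
    ring
  · intro _
    refine ⟨hz, fun v hv hs => ?_⟩
    rw [dsv f0 f1 f2 v hv, ← Finset.mul_sum, hs]
    apply le_of_eq
    ring

end Pool.Agent.H35.SHP
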