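import Mathlib
import Pool.Agent.H35.SHP.Defs
import Pool.Agent.H35.ISO.Defs
import Pool.Agent.H35.ODD.OMod

set_option autoImplicit false

/-!
# ER0: the kept terms in the modes of ISO

`ISO` modes `Md B = (Fin B × Bool → ℕ)`: `ex n none = 0`, `ex n (some a) = n a`.  `upo (ex n) (some k) = ex (up n k)`,
`F (upo (ex n) none) = 0` (`NL`), `mm n = mmo (ex n)` (the factor of `none` in the multinomial is `0! = 1`), `lev B N` is in
bijection with the modes of `levo B N` with `n none = 0`; the others do not contribute (`NL`).  `dg (ex n) = N` on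
`lev B N` (`sum_nb`).
-/

open Pool.Agent.H89.CZ Pool.Agent.H35.ODD
open Pool.Agent.H35.ISO (Md lev up mm)

noncomputable section

namespace Pool.Agent.H35.SHP

variable {B : ℕ}

/-- A mode of ISO as a mode of ODD. -/
def ex (n : Md B) : Mo B := fun μ => match μ with
  | none => 0
  | some a => n a

private theorem upo_ex_some (n : Md B) (k : Fin B) : upo (ex n) (some k) = ex (up n k) := by
  funext μ
  cases μ with
  | none => simp [upo, ex]
  | some a =>
    obtain ⟨l, b⟩ := a
    by_cases hl : l = k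
    · subst hl
      cases b <;> simp [upo, ex, up]
    · simp [upo, ex, up, hl]

theorem ex_up {F : Mo B → ℂ} (hF : ∀ n, F n = ∑ k, F (upo n k)) (hN : NL F) (n : Md B) :
    F (ex n) = ∑ k, F (ex (up n k)) := by
  rw [hF (ex n), Fintype.sum_option, hN (upo (ex n) none) (by simp [upo]), zero_add]
  exact Finset.sum_congr rfl fun k _ => by rw [upo_ex_some]

theorem ex_zero : ex (0 : Md B) = 0 := by
  funext μ
  cases μ <;> rfl

private theorem ex_sum (n : Md B) : ∑ μ, ex n μ = ∑ a, n a := by
  rw [Fintype.sum_option]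
  simp [ex]

private theorem ex_mem {N : ℕ} {n : Md B} (hn : n ∈ lev B N) : ex n ∈ levo B N := by
  simp only [lev, levo, Finset.mem_piAntidiag] at hn ⊢
  exact ⟨by rw [ex_sum]; exact hn.1, fun _ _ => Finset.mem_univ _⟩

private theorem mmo_ex (n : Md B) : mmo (ex n) = mm n := by
  have h1 : ∑ a, ex n (some a) = ∑ a, n a := rfl
  have h2 : Nat.multinomial Finset.univ (ex n) = Nat.multinomial Finset.univ n := by
    unfold Nat.multinomial
    rw [ex_sum, Fintype.prod_option]
    simp [ex]
  unfold mmo mm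
  rw [h1, h2]

private theorem sum_levo_ex (N : ℕ) (g : Mo B → ℝ) (hg : ∀ n : Mo B, n none ≠ 0 → g n = 0) :
    ∑ n ∈ levo B N, g n = ∑ n ∈ lev B N, g (ex n) := by
  symm
  have h0 : ∑ n ∈ (levo B N).filter (fun n : Mo B => n none = 0), g n = ∑ n ∈ levo B N, g n := by
    refine Finset.sum_filter_of_ne fun n _ hne => ?_
    by_contra h
    exact hne (hg n h)
  rw [← h0]
  refine Finset.sum_nbij' (fun n => ex n) (fun n a => n (some a)) ?_ ?_ ?_ ?_ ?_
  · intro n hn
    rw [Finset.mem_filter]
    exact ⟨ex_mem hn, rfl⟩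
  · intro n hn
    rw [Finset.mem_filter] at hn
    have h1 := hn.1
    simp only [levo, lev, Finset.mem_piAntidiag] at h1 ⊢
    refine ⟨?_, fun _ _ => Finset.mem_univ _⟩
    have h2 := h1.1
    rw [Fintype.sum_option, hn.2, zero_add] at h2
    exact h2
  · intro n _
    rfl
  · intro n hn
    rw [Finset.mem_filter] at hn
    funext μ
    cases μ with
    | none => exact hn.2.symm
    | some a => rfl
  · intro n _
    rfl

private theorem dg_ex {N : ℕ} {n : Md B} (hn : n ∈ lev B N) : dg (ex n) = N := by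
  rw [dg, ← sum_nb (ex_mem hn)]
  push_cast
  rfl

theorem kept_iso {f0 f1 : ℝ} (M : ℕ) (F : Mo B → ℂ) (hN : NL F) :
    Kp (fun _ => f0) (fun n => f0 * dg n ^ 2 - f1 * dg n) M F (fun _ => True) =
      ∑ q ∈ Finset.range (M + 1), (dd q / ((2 * q + 2) * (2 * q + 1)) *
        ∑ n ∈ lev B (2 * q + 2), mm n * ((f0 * (2 * (q : ℝ) + 2) ^ 2 - f1 * (2 * q + 2)) *
          ‖F (ex n)‖ ^ 2) -
        dd q * ∑ n ∈ lev B (2 * q), mm n * (f0 * ‖F (ex n)‖ ^ 2)) := by
  unfold Kp
  refine Finset.sum_congr rfl fun q _ => ?_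
  rw [Finset.filter_true_of_mem (fun _ _ => trivial), Finset.filter_true_of_mem (fun _ _ => trivial),
    sum_levo_ex (2 * q + 2) _ (fun n hn => by rw [hN n hn]; simp),
    sum_levo_ex (2 * q) _ (fun n hn => by rw [hN n hn]; simp)]
  congr 2
  · refine Finset.sum_congr rfl fun n hn => ?_
    have h1 := dg_ex hn
    simp only [mmo_ex, h1]
    push_cast
    ring
  · refine Finset.sum_congr rfl fun n _ => ?_
    rw [mmo_ex]
    ring

end Pool.Agent.H35.SHP
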