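import Mathlib
import Pool.Agent.H35.SHP.ER0
import Pool.Agent.H85.SHP.R0

set_option autoImplicit false

/-!
# ER1: the kept terms are nonnegative (helper85's `r0_form`, `H85/SHP/R0.lean`, by `kept_iso`, `ex_up`, `ex_zero`)
-/

open Pool.Agent.H89.CZ Pool.Agent.H35.ODD

noncomputable section

namespace Pool.Agent.H35.SHP

variable {B : ℕ}

theorem kept_nonneg (hB : 1 ≤ B) {f0 f1 : ℝ} (hf1 : 0 ≤ f1)
    (h : (4 * (B : ℝ) + 1) * f1 ≤ (6 * B + 2) * f0) (M : ℕ) (F : Mo B → ℂ)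
    (hF : ∀ n, F n = ∑ k, F (upo n k)) (hN : NL F) (hz : F 0 = 0) :
    0 ≤ Kp (fun _ => f0) (fun n => f0 * dg n ^ 2 - f1 * dg n) M F (fun _ => True) := by
  rw [kept_iso M F hN]
  have h1 := Pool.Agent.H85.SHP.r0_form hB M (fun n => F (ex n)) (fun n => ex_up hF hN n)
    (by rw [ex_zero]; exact hz) hf1 h
  exact h1

end Pool.Agent.H35.SHP
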