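import Mathlib
import Pool.Agent.H35.SHP.Defs
import Pool.Agent.H35.ODD.OMod
import Pool.Agent.H89.CZ.KSer

set_option autoImplicit false

/-!
# ERp: the kept terms are nonnegative if `f1 ≤ f0`, for every `p`

Put `s_N = ∑_{n ∈ levo B N, p n} mmo n ‖F n‖² ≥ 0`, `ω_q = dd q/((2q+2)(2q+1))`; `dg n = N` on `levo B N` (`sum_nb`).
`dd (q+1) = dd q (2q+1)/(2q+2)` (`dd_succ`), so `dd (q+1) = (2q+1)² ω_q`.  By induction on `M`:
`Kp ≥ ω_M f0 (2M+1)² s_{2M+2}`: step: `ω_M f0 (2M+1)² s_{2M+2} - dd (M+1) f0 s_{2M+2} = 0` and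
`ω (f0 N² - f1 N) ≥ ω f0 (N-1)²` for `N = 2M+4` as `f0 (2N-1) ≥ f1 N`.  Level `0`: only `n = 0` (`levo_zero`), `F 0 = 0`.
-/

open Pool.Agent.H89.CZ Pool.Agent.H35.ODD

noncomputable section

namespace Pool.Agent.H35.SHP

variable {B : ℕ}

private theorem dg_levo {N : ℕ} {n : Mo B} (hn : n ∈ levo B N) : dg n = N := by
  rw [dg, ← sum_nb hn]
  push_cast
  rfl

/-- The sum of the level. -/
private def ls (F : Mo B → ℂ) (p : Mo B → Prop) [DecidablePred p] (N : ℕ) : ℝ :=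
  ∑ n ∈ (levo B N).filter p, mmo n * ‖F n‖ ^ 2

private theorem ls_nonneg (F : Mo B → ℂ) (p : Mo B → Prop) [DecidablePred p] (N : ℕ) :
    0 ≤ ls F p N :=
  Finset.sum_nonneg fun n _ => mul_nonneg (mmo_pos n).le (by positivity)

private theorem ls_zero (F : Mo B → ℂ) (hz : F 0 = 0) (p : Mo B → Prop) [DecidablePred p] :
    ls F p 0 = 0 := by
  refine Finset.sum_eq_zero fun n hn => ?_
  rw [levo_zero (Finset.mem_filter.1 hn).1, hz]
  simp

private theorem Kp_eq (f0 f1 : ℝ) (M : ℕ) (F : Mo B → ℂ) (p : Mo B → Prop) [DecidablePred p] :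
    Kp (fun _ => f0) (fun n => f0 * dg n ^ 2 - f1 * dg n) M F p =
      ∑ q ∈ Finset.range (M + 1), (dd q / ((2 * q + 2) * (2 * q + 1)) *
        ((f0 * (2 * (q : ℝ) + 2) ^ 2 - f1 * (2 * q + 2)) * ls F p (2 * q + 2)) -
        dd q * (f0 * ls F p (2 * q))) := by
  unfold Kp
  refine Finset.sum_congr rfl fun q _ => ?_
  congr 2
  · rw [ls, Finset.mul_sum]
    refine Finset.sum_congr rfl fun n hn => ?_
    change mmo n * (f0 * dg n ^ 2 - f1 * dg n) * ‖F n‖ ^ 2 = _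
    rw [dg_levo (Finset.mem_filter.1 hn).1]
    push_cast
    ring
  · rw [ls, Finset.mul_sum]
    refine Finset.sum_congr rfl fun n _ => ?_
    ring

theorem kept_nonneg' {f0 f1 : ℝ} (hf1 : 0 ≤ f1) (h : f1 ≤ f0) (M : ℕ) (F : Mo B → ℂ)
    (hz : F 0 = 0) (p : Mo B → Prop) [DecidablePred p] :
    0 ≤ Kp (fun _ => f0) (fun n => f0 * dg n ^ 2 - f1 * dg n) M F p := by
  have hf0 : 0 ≤ f0 := hf1.trans h
  have key : dd M / ((2 * M + 2) * (2 * M + 1)) * (f0 * (2 * (M : ℝ) + 1) ^ 2 *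
      ls F p (2 * M + 2)) ≤ Kp (fun _ => f0) (fun n => f0 * dg n ^ 2 - f1 * dg n) M F p := by
    rw [Kp_eq]
    induction M with
    | zero =>
      rw [Finset.sum_range_one]
      have h1 := ls_nonneg F p 2
      have h2 := dd_pos 0
      simp only [Nat.cast_zero, mul_zero, zero_add, ls_zero F hz p, sub_zero]
      have h3 : 0 ≤ dd 0 / (2 * 1) * ((3 * f0 - 2 * f1) * ls F p 2) := by
        have h4 : 0 ≤ 3 * f0 - 2 * f1 := by linarith
        positivity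
      nlinarith
    | succ M ih =>
      rw [Finset.sum_range_succ]
      refine le_trans ?_ (add_le_add_left ih _)
      have h1 := ls_nonneg F p (2 * (M + 1) + 2)
      have h2 := dd_pos (M + 1)
      have e1 : dd M / ((2 * M + 2) * (2 * M + 1)) * (f0 * (2 * (M : ℝ) + 1) ^ 2 *
          ls F p (2 * M + 2)) = dd (M + 1) * (f0 * ls F p (2 * (M + 1))) := by
        rw [dd_succ, show 2 * (M + 1) = 2 * M + 2 by ring]
        field_simp
      rw [e1]
      have h3 : 0 ≤ dd (M + 1) / ((2 * ((M + 1 : ℕ) : ℝ) + 2) * (2 * ((M + 1 : ℕ) : ℝ) + 1)) *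
          ((f0 * (2 * (2 * ((M + 1 : ℕ) : ℝ) + 2) - 1) - f1 * (2 * ((M + 1 : ℕ) : ℝ) + 2)) *
            ls F p (2 * (M + 1) + 2)) := by
        have h4 : 0 ≤ f0 * (2 * (2 * ((M + 1 : ℕ) : ℝ) + 2) - 1) -
            f1 * (2 * ((M + 1 : ℕ) : ℝ) + 2) := by
          have h5 : (0 : ℝ) ≤ ((M + 1 : ℕ) : ℝ) := Nat.cast_nonneg _
          have h6 : f1 * (2 * ((M + 1 : ℕ) : ℝ) + 2) ≤ f0 * (2 * ((M + 1 : ℕ) : ℝ) + 2) :=
            mul_le_mul_of_nonneg_right h (by linarith)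
          have h7 : f0 * (2 * ((M + 1 : ℕ) : ℝ) + 2) ≤
              f0 * (2 * (2 * ((M + 1 : ℕ) : ℝ) + 2) - 1) :=
            mul_le_mul_of_nonneg_left (by linarith) hf0
          linarith
        positivity
      linear_combination h3
  refine le_trans ?_ key
  have h1 := ls_nonneg F p (2 * M + 2)
  have h2 := dd_pos M
  positivity

end Pool.Agent.H35.SHP
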