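import Mathlib
import Pool.Agent.H35.SHP.ECha
import Pool.Agent.H35.SHP.ELcG
import Pool.Agent.H35.SHP.ELcU
import Pool.Agent.H35.SHP.ENeU
import Pool.Agent.H35.SHP.ER1
import Pool.Agent.H35.SHP.ERp
import Pool.Agent.H35.ODD.OLin

set_option autoImplicit false

/-!
# EAsm: assembly (models: `charged_nonneg`, `neutral_nonneg` of ODD)

`x = PZ univ` if `φ (B-2) ≤ φ (B-1)` (and `PZ univ ≠ 0`), else `x = 0`.  For each `Z` with `PZ ≠ 0` a certificate `LC`
(`lc_good` with `AtV`, for `Z = univ` `lc_exact` if `φ (B-2) ≤ φ (B-1)`, else `lc_mm`), `charged_low`: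
`x Kp (f0, f0 N² - f1 N) ≤ Qf charged` (`EZ` of a function which is `0` except at `univ` is `PZ univ` times the value).
Charge-free: `Qf_neutral`, `Qf_EZ`, for each `Z`: `NOK` (`p2_vert`, `p1_vert`, `Qf_congr`) if `Z ≠ univ`, and `neu_univ`
for `Z = univ` (in the case `f1 ≤ f0` followed by `kept_nonneg'`, file `ERp`).
Sum of both: `Kp … charged + Kp … not charged = Kp … True`, `kept_nonneg`.
-/

open Pool.Agent.H89.CZ Pool.Agent.H35.ODD

noncomputable section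

namespace Pool.Agent.H35.SHP

variable {B : ℕ}

private theorem Kp_smul (x : ℝ) (S R : Mo B → ℝ) (M : ℕ) (F : Mo B → ℂ) (p : Mo B → Prop)
    [DecidablePred p] :
    Kp (fun n => x * S n) (fun n => x * R n) M F p = x * Kp S R M F p := by
  unfold Kp
  rw [Finset.mul_sum]
  refine Finset.sum_congr rfl fun q _ => ?_
  have e1 : ∑ n ∈ (levo B (2 * q + 2)).filter p, mmo n * (x * R n) * ‖F n‖ ^ 2 =
      x * ∑ n ∈ (levo B (2 * q + 2)).filter p, mmo n * R n * ‖F n‖ ^ 2 := by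
    rw [Finset.mul_sum]
    exact Finset.sum_congr rfl fun n _ => by ring
  have e2 : ∑ n ∈ (levo B (2 * q)).filter p, mmo n * (x * S n) * ‖F n‖ ^ 2 =
      x * ∑ n ∈ (levo B (2 * q)).filter p, mmo n * S n * ‖F n‖ ^ 2 := by
    rw [Finset.mul_sum]
    exact Finset.sum_congr rfl fun n _ => by ring
  rw [e1, e2]
  ring

private theorem Kp_zero (M : ℕ) (F : Mo B → ℂ) (p : Mo B → Prop) [DecidablePred p] :
    Kp (fun _ => 0) (fun _ => 0) M F p = 0 := by
  have h := Kp_smul 0 (fun _ => 0) (fun _ => 0) M F p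
  simpa using h

private theorem Kp_split (S R : Mo B → ℝ) (M : ℕ) (F : Mo B → ℂ) :
    Kp S R M F (fun _ => True) =
      Kp S R M F (fun n => ∃ k, eb n k ≠ 0) + Kp S R M F (fun n => ¬ ∃ k, eb n k ≠ 0) := by
  unfold Kp
  rw [← Finset.sum_add_distrib]
  refine Finset.sum_congr rfl fun q _ => ?_
  rw [Finset.filter_true, Finset.filter_true,
    ← Finset.sum_filter_add_sum_filter_not (levo B (2 * q + 2)) (fun n => ∃ k, eb n k ≠ 0),
    ← Finset.sum_filter_add_sum_filter_not (levo B (2 * q)) (fun n => ∃ k, eb n k ≠ 0)]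
  ring

private theorem EZ_single (s : Fin B → ℝ) (a : ℝ) :
    EZ s (fun Z => if Z = Finset.univ then a else 0) = PZ s Finset.univ * a := by
  unfold EZ
  rw [Finset.sum_eq_single Finset.univ]
  · simp
  · intro Z _ hZ
    simp [hZ]
  · intro h
    exact absurd (Finset.mem_univ _) h

private theorem card_lt {Z : Finset (Fin B)} (hZ : Z ≠ Finset.univ) : Z.card < B := by
  have h := Finset.card_lt_card (Finset.ssubset_univ_iff.2 hZ)
  simpa using h

private theorem neu_ne {Z : Finset (Fin B)} (φ : ℕ → ℝ)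
    (h : ∃ f0 f1 f2 : ℝ, NOK B Z.card f0 f1 f2 ∧ AtV φ Z.card f0 f1 f2) (M : ℕ) (F : Mo B → ℂ)
    (hF : ∀ n, F n = ∑ k, F (upo n k)) (hN : NL F) (hz : F 0 = 0) :
    0 ≤ Qf (p2 φ Z) (p1 φ Z) (fun _ _ => 0) M F (fun n => ¬ ∃ k, eb n k ≠ 0) := by
  obtain ⟨f0, f1, f2, h1, h2⟩ := h
  rw [Qf_congr (P2' := VP2 Z f0 f1 f2) (P1' := VP1 Z f1 f2) (X2' := fun _ _ => 0)
    (fun j k hjk => p2_vert Z φ h2.1 (fun _ => h2.2.1) h2.2.2 hjk)
    (fun k => p1_vert Z φ h2.1 (fun _ => h2.2.1) k) (fun j k _ => rfl) M F]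
  exact h1 Z rfl M F hF hN hz

private theorem neu_u (φ : ℕ → ℝ) (M : ℕ) (F : Mo B → ℂ)
    (hF : ∀ n, F n = ∑ k, F (upo n k)) (hN : NL F) (hz : F 0 = 0) :
    Kp (fun _ => φ (B - 2)) (fun n => φ (B - 2) * dg n ^ 2 - φ (B - 1) * dg n) M F
        (fun n => ¬ ∃ k, eb n k ≠ 0) ≤
      Qf (p2 φ Finset.univ) (p1 φ Finset.univ) (fun _ _ => 0) M F
        (fun n => ¬ ∃ k, eb n k ≠ 0) := by
  have hc : (Finset.univ : Finset (Fin B)).card = B := by simp
  have h1 : 1 ≤ (Finset.univ : Finset (Fin B)).card →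
      φ (B - 1) = φ ((Finset.univ : Finset (Fin B)).card - 1) := by
    rw [hc]
    exact fun _ => rfl
  have h2 : (Finset.univ : Finset (Fin B)).card < B →
      (0 : ℝ) = φ (Finset.univ : Finset (Fin B)).card := by
    rw [hc]
    exact fun h => absurd h (lt_irrefl _)
  have h0 : 2 ≤ (Finset.univ : Finset (Fin B)).card →
      φ (B - 2) = φ ((Finset.univ : Finset (Fin B)).card - 2) := by
    rw [hc]
    exact fun _ => rfl
  rw [Qf_congr (P2' := VP2 Finset.univ (φ (B - 2)) (φ (B - 1)) 0)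
    (P1' := VP1 Finset.univ (φ (B - 1)) 0) (X2' := fun _ _ => 0)
    (fun j k hjk => p2_vert Finset.univ φ h1 h2 h0 hjk)
    (fun k => p1_vert Finset.univ φ h1 h2 k) (fun j k _ => rfl) M F]
  exact neu_univ M F hF hN hz

private theorem neu_EZ (c : Fin B → ℝ) (φ : ℕ → ℝ) (M : ℕ) (F : Mo B → ℂ) :
    Qf (AP2 c φ) (AP1 c φ) (AX2 c φ) M F (fun n => ¬ ∃ k, eb n k ≠ 0) =
      ∑ Z, PZ (fun k => c k ^ 2) Z * Qf (p2 φ Z) (p1 φ Z) (fun _ _ => 0) M F
        (fun n => ¬ ∃ k, eb n k ≠ 0) := by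
  rw [Qf_neutral]
  exact Qf_EZ (fun k => c k ^ 2) (p2 φ) (p1 φ) M F (fun n => ¬ ∃ k, eb n k ≠ 0)

theorem total_nonneg (hB : 2 ≤ B) {c : Fin B → ℝ} (hc : ∀ k, 0 ≤ c k ∧ c k ≤ 1) (φ : ℕ → ℝ)
    (hok : ∀ Z, PZ (fun k => c k ^ 2) Z ≠ 0 → EOkAt φ B Z.card) (M : ℕ) (F : Mo B → ℂ)
    (hF : ∀ n, F n = ∑ k, F (upo n k)) (hN : NL F) (hz : F 0 = 0) :
    0 ≤ Qf (AP2 c φ) (AP1 c φ) (AX2 c φ) M F (fun _ => True) := by
  set s : Fin B → ℝ := fun k => c k ^ 2 with hsdef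
  have hs : ∀ k, 0 ≤ s k ∧ s k ≤ 1 := fun k =>
    ⟨sq_nonneg _, by simpa [hsdef] using pow_le_one₀ (n := 2) (hc k).1 (hc k).2⟩
  have hcu : (Finset.univ : Finset (Fin B)).card = B := by simp
  -- the vertices different from `univ`
  have hL0 : ∀ Z : Finset (Fin B), Z ≠ Finset.univ → PZ s Z ≠ 0 →
      ∃ (T : Mo B → ℝ) (Dt Du : Mo B → Bk B → ℝ), LC Z φ T (fun _ => 0) (fun _ => 0) Dt Du := by
    intro Z hZ hP
    rcases hok Z hP with ⟨hm, ⟨f0, f1, f2, hG, hA⟩, -⟩ | ⟨hm, -⟩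
    · exact lc_good Z φ hm hG hA
    · exact absurd hm (card_lt hZ).ne
  have hN0 : ∀ Z : Finset (Fin B), Z ≠ Finset.univ → PZ s Z ≠ 0 →
      0 ≤ Qf (p2 φ Z) (p1 φ Z) (fun _ _ => 0) M F (fun n => ¬ ∃ k, eb n k ≠ 0) := by
    intro Z hZ hP
    rcases hok Z hP with ⟨-, -, h⟩ | ⟨hm, -⟩
    · exact neu_ne φ h M F hF hN hz
    · exact absurd hm (card_lt hZ).ne
  -- the charge-free part is at least its part at `univ`
  have hNe : PZ s Finset.univ * Qf (p2 φ Finset.univ) (p1 φ Finset.univ) (fun _ _ => 0) M F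
      (fun n => ¬ ∃ k, eb n k ≠ 0) ≤
      Qf (AP2 c φ) (AP1 c φ) (AX2 c φ) M F (fun n => ¬ ∃ k, eb n k ≠ 0) := by
    rw [neu_EZ c φ M F, ← Finset.add_sum_erase _ _ (Finset.mem_univ (Finset.univ : Finset (Fin B)))]
    refine le_add_of_nonneg_right (Finset.sum_nonneg fun Z hZ => ?_)
    by_cases hP : PZ s Z = 0
    · have hP' : PZ (fun k => c k ^ 2) Z = 0 := hP
      rw [hP', zero_mul]
    · exact mul_nonneg (PZ_nonneg hs Z) (hN0 Z (Finset.ne_of_mem_erase hZ) hP)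
  rw [Qf_split]
  by_cases hU : PZ s Finset.univ ≠ 0 ∧ φ (B - 2) ≤ φ (B - 1) ∧ 0 ≤ φ (B - 1) ∧
      (4 * (B : ℝ) + 1) * φ (B - 1) ≤ (6 * B + 2) * φ (B - 2)
  · obtain ⟨hP, hle, hf1, hineq⟩ := hU
    have hex : ∀ Z : Finset (Fin B), ∃ (T : Mo B → ℝ) (Dt Du : Mo B → Bk B → ℝ), PZ s Z ≠ 0 →
        LC Z φ T (fun _ => if Z = Finset.univ then φ (B - 2) else 0)
          (fun n => if Z = Finset.univ then φ (B - 2) * dg n ^ 2 - φ (B - 1) * dg n else 0)
          Dt Du := by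
      intro Z
      by_cases hZ : Z = Finset.univ
      · subst hZ
        refine ⟨fun _ => 0, fun _ _ => -φ (B - 2), fun _ _ => -φ (B - 2), fun _ => ?_⟩
        simp only [if_true]
        exact lc_exact hB φ hle
      · by_cases hP' : PZ s Z = 0
        · exact ⟨fun _ => 0, fun _ _ => 0, fun _ _ => 0, fun h => absurd hP' h⟩
        · obtain ⟨T, Dt, Du, h⟩ := hL0 Z hZ hP'
          refine ⟨T, Dt, Du, fun _ => ?_⟩
          simp only [if_neg hZ]
          exact h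
    choose T Dt Du hL using hex
    have hch := charged_low hc φ T (fun Z _ => if Z = Finset.univ then φ (B - 2) else 0)
      (fun Z n => if Z = Finset.univ then φ (B - 2) * dg n ^ 2 - φ (B - 1) * dg n else 0)
      Dt Du hL M F hF hN
    simp only [EZ_single] at hch
    rw [Kp_smul] at hch
    have hu := neu_u φ M F hF hN hz
    have hk := kept_nonneg (by omega) hf1 hineq M F hF hN hz
    rw [Kp_split] at hk
    have hp := PZ_nonneg hs Finset.univ
    have h1 := mul_le_mul_of_nonneg_left hu hp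
    have h2 := mul_nonneg hp hk
    rw [mul_add] at h2
    have hch' : PZ s Finset.univ * Kp (fun _ => φ (B - 2))
        (fun n => φ (B - 2) * dg n ^ 2 - φ (B - 1) * dg n) M F (fun n => ∃ k, eb n k ≠ 0) ≤
        Qf (AP2 c φ) (AP1 c φ) (AX2 c φ) M F (fun n => ∃ k, eb n k ≠ 0) := hch
    linarith
  · have hex : ∀ Z : Finset (Fin B), ∃ (T : Mo B → ℝ) (Dt Du : Mo B → Bk B → ℝ), PZ s Z ≠ 0 →
        LC Z φ T (fun _ => 0) (fun _ => 0) Dt Du := by
      intro Z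
      by_cases hP' : PZ s Z = 0
      · exact ⟨fun _ => 0, fun _ _ => 0, fun _ _ => 0, fun h => absurd hP' h⟩
      · by_cases hZ : Z = Finset.univ
        · subst hZ
          rcases hok _ hP' with ⟨hm, -⟩ | ⟨-, -, hf1, ⟨h1, h2⟩ | ⟨h1, h2⟩⟩
          · rw [hcu] at hm
            exact absurd hm (lt_irrefl _)
          · exact absurd ⟨hP', h1, hf1, h2⟩ hU
          · obtain ⟨T, Dt, Du, h⟩ := lc_mm hB φ hf1 h1 h2
            exact ⟨T, Dt, Du, fun _ => h⟩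
        · obtain ⟨T, Dt, Du, h⟩ := hL0 Z hZ hP'
          exact ⟨T, Dt, Du, fun _ => h⟩
    choose T Dt Du hL using hex
    have hch := charged_low hc φ T (fun _ _ => 0) (fun _ _ => 0) Dt Du hL M F hF hN
    simp only [EZ_const] at hch
    rw [Kp_zero] at hch
    have h1 : 0 ≤ PZ s Finset.univ * Qf (p2 φ Finset.univ) (p1 φ Finset.univ) (fun _ _ => 0) M F
        (fun n => ¬ ∃ k, eb n k ≠ 0) := by
      by_cases hP' : PZ s Finset.univ = 0
      · rw [hP', zero_mul]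
      · refine mul_nonneg (PZ_nonneg hs _) ?_
        rcases hok _ hP' with ⟨hm, -⟩ | ⟨-, -, hf1, ⟨h1, h2⟩ | ⟨h1, h2⟩⟩
        · rw [hcu] at hm
          exact absurd hm (lt_irrefl _)
        · exact absurd ⟨hP', h1, hf1, h2⟩ hU
        · exact (kept_nonneg' hf1 h1 M F hz _).trans (neu_u φ M F hF hN hz)
    linarith

end Pool.Agent.H35.SHP
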