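import Mathlib
import Pool.Agent.H35.SHP.EAsm
import Pool.Agent.H35.ODD.OCor

set_option autoImplicit false

/-!
# ECor: the kernel inequality (model: `coro` of `H35/ODD/OCor.lean`, uses `OCor_lim`)

`expando` and `total_nonneg` (`FFo_up`, `FFo_zero`; `FFo u lam n = 0` if `n none ≠ 0` because `u.2 = 0`).
-/

open MeasureTheory Pool.Agent.H89.CZ Pool.Agent.H35.ODD
open Pool.Agent.H35.ISO (tr)
open scoped ComplexConjugate

noncomputable section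

namespace Pool.Agent.H35.SHP

variable {B : ℕ}

/-- `FFo u lam n = 0` if `n none ≠ 0`, as `u.2 = 0`. -/
private theorem ECor_NL {N : ℕ} (u : Fin N → Vc B) (hu0 : ∀ j, (u j).2 = 0) (lam : Fin N → ℝ) :
    NL (FFo u lam) := by
  intro n hn
  unfold FFo
  refine Finset.sum_eq_zero fun j _ => ?_
  have h : moo (u j) n = 0 := by
    unfold moo
    rw [hu0 j]
    simp [hn]
  rw [h, mul_zero]

/-! ### The truncated form -/

private theorem ECor_trunc (hB : 2 ≤ B) {c : Fin B → ℝ} (hc : ∀ k, 0 ≤ c k ∧ c k ≤ 1) (φ : ℕ → ℝ)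
    (hok : ∀ Z, PZ (fun k => c k ^ 2) Z ≠ 0 → EOkAt φ B Z.card) {N : ℕ} (u : Fin N → Vc B)
    (hu : ∀ j, ∑ k, rho (u j) k = 1) (hu0 : ∀ j, (u j).2 = 0) (lam : Fin N → ℝ)
    (hl : ∑ j, lam j = 0) (M : ℕ) :
    ∑ j, ∑ k, lam j * lam k *
      (num (AP2 c φ) (AP1 c φ) (AX2 c φ) (u j) (u k) * tr M (tto (u j) (u k))) ≤ 0 := by
  have h := expando (AP2 c φ) (AP1 c φ) (AX2 c φ) M u lam
  have hF := FFo_up u hu lam
  have h0 : FFo u lam 0 = 0 := by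
    rw [FFo_zero, hl]
    simp
  have h1 := total_nonneg hB hc φ hok M (FFo u lam) hF (ECor_NL u hu0 lam) h0
  linarith

/-! ### The limit -/

theorem coroE (hB : 2 ≤ B) {c : Fin B → ℝ} (hc : ∀ k, 0 ≤ c k ∧ c k ≤ 1) (φ : ℕ → ℝ)
    (hok : ∀ Z, PZ (fun k => c k ^ 2) Z ≠ 0 → EOkAt φ B Z.card) {N : ℕ} (u : Fin N → Vc B)
    (hu : ∀ j, ∑ k, rho (u j) k = 1) (hu0 : ∀ j, (u j).2 = 0) (lam : Fin N → ℝ)
    (hl : ∑ j, lam j = 0) :
    ∑ j, ∑ k, lam j * lam k *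
      (num (AP2 c φ) (AP1 c φ) (AX2 c φ) (u j) (u k) / √(1 - tto (u j) (u k) ^ 2)) ≤ 0 := by
  have h : Filter.Tendsto
      (fun M => ∑ j, ∑ k, lam j * lam k *
        (num (AP2 c φ) (AP1 c φ) (AX2 c φ) (u j) (u k) * tr M (tto (u j) (u k))))
      Filter.atTop
      (nhds (∑ j, ∑ k, lam j * lam k *
        (num (AP2 c φ) (AP1 c φ) (AX2 c φ) (u j) (u k) / √(1 - tto (u j) (u k) ^ 2)))) :=
    tendsto_finsetSum _ (fun j _ => tendsto_finsetSum _ (fun k _ =>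
      (OCor_lim _ _ _ (hu j) (hu k)).const_mul (lam j * lam k)))
  exact le_of_tendsto' h (fun M => ECor_trunc hB hc φ hok u hu hu0 lam hl M)

end Pool.Agent.H35.SHP
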