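import Mathlib
import Pool.Agent.H35.SHP.EAbs
import Pool.Agent.H35.SHP.EVer
import Pool.Agent.H35.ODD.ONeC

set_option autoImplicit false

/-!
# ENeC: the charge-free modes at a vertex `Z ≠ univ` (model: `H35/ODD/ONeC.lean`, `neu_gen`)

Charge-free modes of even degree: all `N_k` even (`neutral_even`), `j = ja Z n = 2a`, `l = lz Z n = 2b`
(`neutral_even_j`); `T`, `Ga`, `Gz` are functions of the half degrees `a = j/2`, `b = l/2` (certificates of helper85,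
`H85/SHP/Cer.lean`).
`nok_of`: `abs_low` with `S = R = 0` and, for `k ∉ Z` (planes): `Dt n k = Ga a b/(N_k + 2) - f2`,
`Du n k = Ga (a-1) b/N_k - f2`, for `k ∈ Z`: `Dt n k = Gz a b/(N_k + 2) - f0`, `Du n k = Gz a (b-1)/N_k - f0` (`ja_upo`,
`lz_upo`, `nb_upo`: `Du (upo n k) k = Dt n k`, natural subtraction and division; for the line put both `0`).
(I) with `e = 0` (if `N_k = 0` the term is `0`): `∑ wt Du = j Ga (a-1) b + l Gz a (b-1) - f2 ∑_{∉Z} N_k² - f0 ∑_Z N_k²`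
and `cn = f2 (j² - ∑_{∉Z} N²) + 2 f1 j l + f0 (l² - ∑_Z N²) - f2 j - f1 l`.  (II): `ver_IIe`.  (0): by hand,
`f2 - 2 f1 + f0 ≤ Ga 0 0/r + Gz 0 0/(2m)`.
`nok_empty`: `Z = ∅`: `neu_gen` of ODD (it does not need `NL`).
-/

open Pool.Agent.H89.CZ Pool.Agent.H35.ODD

noncomputable section

namespace Pool.Agent.H35.SHP

variable {B : ℕ}

private theorem sum_blk (Z : Finset (Fin B)) (g : Bk B → ℝ) :
    ∑ k, g k = ∑ k ∈ zb Z, g k + ∑ k ∈ (zb Z)ᶜ, g k :=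
  (Finset.sum_add_sum_compl _ _).symm

private theorem sum_zb {R : Type*} [AddCommMonoid R] (Z : Finset (Fin B)) (g : Bk B → R) :
    ∑ k ∈ zb Z, g k = ∑ k ∈ Z, g (some k) := by
  simp [zb, Finset.sum_map]

private theorem compl_zb (Z : Finset (Fin B)) : (zb Z)ᶜ = insert none (zb Zᶜ) := by
  ext k
  cases k <;> simp [zb]

private theorem sum_zbc {R : Type*} [AddCommMonoid R] (Z : Finset (Fin B)) (g : Bk B → R) :
    ∑ k ∈ (zb Z)ᶜ, g k = g none + ∑ k ∈ Zᶜ, g (some k) := by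
  rw [compl_zb, Finset.sum_insert (by simp [zb]), sum_zb]

private theorem dsum (Z : Finset (Fin B)) (f0 f1 f2 : ℝ) (v : Bk B → ℝ) :
    ∑ j, ∑ k ∈ Finset.univ.erase j, VP2 Z f0 f1 f2 j k * (v j * v k) =
      f2 * ((∑ k ∈ (zb Z)ᶜ, v k) ^ 2 - ∑ k ∈ (zb Z)ᶜ, v k ^ 2) +
        2 * f1 * (∑ k ∈ (zb Z)ᶜ, v k) * (∑ k ∈ zb Z, v k) +
        f0 * ((∑ k ∈ zb Z, v k) ^ 2 - ∑ k ∈ zb Z, v k ^ 2) := by
  have h1 : ∀ j : Bk B, ∑ k ∈ Finset.univ.erase j, VP2 Z f0 f1 f2 j k * (v j * v k) =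
      ∑ k, VP2 Z f0 f1 f2 j k * (v j * v k) - VP2 Z f0 f1 f2 j j * (v j * v j) := fun j =>
    Finset.sum_erase_eq_sub (Finset.mem_univ j)
  have A : ∀ j ∈ zb Z, ∑ k, VP2 Z f0 f1 f2 j k * (v j * v k) =
      v j * (f0 * (∑ k ∈ zb Z, v k) + f1 * ∑ k ∈ (zb Z)ᶜ, v k) := by
    intro j hj
    rw [sum_blk Z, mul_add, Finset.mul_sum, Finset.mul_sum, Finset.mul_sum, Finset.mul_sum]
    congr 1
    · refine Finset.sum_congr rfl fun k hk => ?_
      rw [VP2, if_pos hj, if_pos hk]; ring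
    · refine Finset.sum_congr rfl fun k hk => ?_
      rw [VP2, if_pos hj, if_neg (Finset.mem_compl.1 hk)]; ring
  have A' : ∀ j ∈ (zb Z)ᶜ, ∑ k, VP2 Z f0 f1 f2 j k * (v j * v k) =
      v j * (f1 * (∑ k ∈ zb Z, v k) + f2 * ∑ k ∈ (zb Z)ᶜ, v k) := by
    intro j hj
    have hj' := Finset.mem_compl.1 hj
    rw [sum_blk Z, mul_add, Finset.mul_sum, Finset.mul_sum, Finset.mul_sum, Finset.mul_sum]
    congr 1
    · refine Finset.sum_congr rfl fun k hk => ?_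
      rw [VP2, if_neg hj', if_pos hk]; ring
    · refine Finset.sum_congr rfl fun k hk => ?_
      rw [VP2, if_neg hj', if_neg (Finset.mem_compl.1 hk)]; ring
  have D : ∑ j, VP2 Z f0 f1 f2 j j * (v j * v j) =
      f0 * (∑ k ∈ zb Z, v k ^ 2) + f2 * ∑ k ∈ (zb Z)ᶜ, v k ^ 2 := by
    rw [sum_blk Z, Finset.mul_sum, Finset.mul_sum]
    congr 1
    · refine Finset.sum_congr rfl fun k hk => ?_
      rw [VP2, if_pos hk, if_pos hk]; ring
    · refine Finset.sum_congr rfl fun k hk => ?_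
      rw [VP2, if_neg (Finset.mem_compl.1 hk), if_neg (Finset.mem_compl.1 hk)]; ring
  simp_rw [h1]
  rw [Finset.sum_sub_distrib, D, sum_blk Z (fun j => ∑ k, VP2 Z f0 f1 f2 j k * (v j * v k)),
    Finset.sum_congr rfl A, Finset.sum_congr rfl A', ← Finset.sum_mul, ← Finset.sum_mul]
  ring

/-- The coefficient of `v_k²`. -/
private def Dt (Z : Finset (Fin B)) (f0 f2 : ℝ) (Ga Gz : ℕ → ℕ → ℝ) (n : Mo B) : Bk B → ℝ
  | none => 0
  | some k => if k ∈ Z then Gz (ja Z n / 2) (lz Z n / 2) / ((nb n (some k) : ℝ) + 2) - f0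
      else Ga (ja Z n / 2) (lz Z n / 2) / ((nb n (some k) : ℝ) + 2) - f2

/-- The same seen from the upper level. -/
private def Du (Z : Finset (Fin B)) (f0 f2 : ℝ) (Ga Gz : ℕ → ℕ → ℝ) (n : Mo B) : Bk B → ℝ
  | none => 0
  | some k => if k ∈ Z then Gz (ja Z n / 2) (lz Z n / 2 - 1) / (nb n (some k) : ℝ) - f0
      else Ga (ja Z n / 2 - 1) (lz Z n / 2) / (nb n (some k) : ℝ) - f2

private theorem Du_upo (Z : Finset (Fin B)) (f0 f2 : ℝ) (Ga Gz : ℕ → ℕ → ℝ) (n : Mo B) (k : Bk B) :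
    Du Z f0 f2 Ga Gz (upo n k) k = Dt Z f0 f2 Ga Gz n k := by
  cases k with
  | none => rfl
  | some k =>
    unfold Du Dt
    dsimp only
    rw [ja_upo, lz_upo, nb_upo, if_pos rfl]
    by_cases h : k ∈ Z
    · have h' : (some k : Bk B) ∈ zb Z := by simpa [zb] using h
      rw [if_pos h, if_pos h, if_pos h', if_pos h', add_zero]
      have e : (lz Z n + 2) / 2 - 1 = lz Z n / 2 := by omega
      rw [e]
      push_cast
      ring
    · have h' : (some k : Bk B) ∉ zb Z := by simpa [zb] using h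
      rw [if_neg h, if_neg h, if_neg h', if_neg h', add_zero]
      have e : (ja Z n + 2) / 2 - 1 = ja Z n / 2 := by omega
      rw [e]
      push_cast
      ring

private theorem cn_zero (Z : Finset (Fin B)) (f0 f1 f2 : ℝ) (n : Mo B) (he : ∀ k, eb n k = 0)
    (h0 : n none = 0) :
    cn (VP2 Z f0 f1 f2) (VP1 Z f1 f2) (fun _ _ => 0) n =
      f2 * ((ja Z n : ℝ) ^ 2 - ∑ k ∈ Zᶜ, (nb n (some k) : ℝ) ^ 2) +
        2 * f1 * ja Z n * lz Z n + f0 * ((lz Z n : ℝ) ^ 2 - ∑ k ∈ Z, (nb n (some k) : ℝ) ^ 2) -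
        f1 * lz Z n - f2 * ja Z n := by
  have hN0 : (nb n none : ℝ) = 0 := by
    have : nb n none = 0 := h0
    rw [this, Nat.cast_zero]
  have hja : (ja Z n : ℝ) = ∑ k ∈ Zᶜ, (nb n (some k) : ℝ) := by
    rw [ja, sum_zbc]; push_cast; rw [hN0, zero_add]
  have hlz : (lz Z n : ℝ) = ∑ k ∈ Z, (nb n (some k) : ℝ) := by
    rw [lz, sum_zb]; push_cast; rfl
  have hds := dsum Z f0 f1 f2 (fun k => (nb n k : ℝ))
  rw [sum_zbc Z (fun k => (nb n k : ℝ)), sum_zb Z (fun k => (nb n k : ℝ)),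
    sum_zbc Z (fun k => (nb n k : ℝ) ^ 2), sum_zb Z (fun k => (nb n k : ℝ) ^ 2), hN0, zero_add,
    zero_pow two_ne_zero, zero_add, ← hja, ← hlz] at hds
  have hp1 : ∑ k, VP1 Z f1 f2 k * ((nb n (some k) : ℝ) - eb n k ^ 2) =
      f1 * lz Z n + f2 * ja Z n := by
    rw [← Finset.sum_add_sum_compl Z, hja, hlz, Finset.mul_sum, Finset.mul_sum]
    congr 1
    · refine Finset.sum_congr rfl fun k hk => ?_
      rw [VP1, if_pos hk, he k]; ring
    · refine Finset.sum_congr rfl fun k hk => ?_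
      rw [VP1, if_neg (Finset.mem_compl.1 hk), he k]; ring
  unfold cn
  rw [hds, hp1]
  simp only [zero_mul, Finset.sum_const_zero, add_zero]
  ring

private theorem wt_Du (Z : Finset (Fin B)) (f0 f2 : ℝ) (Ga Gz : ℕ → ℕ → ℝ) (n : Mo B)
    (he : ∀ k, eb n k = 0) (h0 : n none = 0) :
    ∑ k, wt n k * Du Z f0 f2 Ga Gz n k =
      (ja Z n : ℝ) * Ga (ja Z n / 2 - 1) (lz Z n / 2) +
        (lz Z n : ℝ) * Gz (ja Z n / 2) (lz Z n / 2 - 1) -
        f2 * ∑ k ∈ Zᶜ, (nb n (some k) : ℝ) ^ 2 - f0 * ∑ k ∈ Z, (nb n (some k) : ℝ) ^ 2 := by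
  have hN0 : (nb n none : ℝ) = 0 := by
    have : nb n none = 0 := h0
    rw [this, Nat.cast_zero]
  have hja : (ja Z n : ℝ) = ∑ k ∈ Zᶜ, (nb n (some k) : ℝ) := by
    rw [ja, sum_zbc]; push_cast; rw [hN0, zero_add]
  have hlz : (lz Z n : ℝ) = ∑ k ∈ Z, (nb n (some k) : ℝ) := by
    rw [lz, sum_zb]; push_cast; rfl
  have frac : ∀ N c f : ℝ, N ^ 2 * (c / N - f) = N * c - f * N ^ 2 := by
    intro N c f
    by_cases hN : N = 0
    · rw [hN]; simp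
    · field_simp
  have e1 : ∑ k ∈ Z, wt n (some k) * Du Z f0 f2 Ga Gz n (some k) =
      (lz Z n : ℝ) * Gz (ja Z n / 2) (lz Z n / 2 - 1) - f0 * ∑ k ∈ Z, (nb n (some k) : ℝ) ^ 2 := by
    rw [hlz, Finset.sum_mul, Finset.mul_sum, ← Finset.sum_sub_distrib]
    refine Finset.sum_congr rfl fun k hk => ?_
    unfold Du wt
    dsimp only
    rw [he k, if_pos hk, zero_pow two_ne_zero, sub_zero, frac]
  have e2 : ∑ k ∈ Zᶜ, wt n (some k) * Du Z f0 f2 Ga Gz n (some k) =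
      (ja Z n : ℝ) * Ga (ja Z n / 2 - 1) (lz Z n / 2) -
        f2 * ∑ k ∈ Zᶜ, (nb n (some k) : ℝ) ^ 2 := by
    rw [hja, Finset.sum_mul, Finset.mul_sum, ← Finset.sum_sub_distrib]
    refine Finset.sum_congr rfl fun k hk => ?_
    unfold Du wt
    dsimp only
    rw [he k, if_neg (Finset.mem_compl.1 hk), zero_pow two_ne_zero, sub_zero, frac]
  rw [sum_blk Z, sum_zb Z (fun k => wt n k * Du Z f0 f2 Ga Gz n k),
    sum_zbc Z (fun k => wt n k * Du Z f0 f2 Ga Gz n k), e1, e2]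
  have e3 : wt n none * Du Z f0 f2 Ga Gz n none = 0 := by
    unfold Du
    dsimp only
    rw [mul_zero]
  rw [e3]
  ring

private theorem ver_0e (Z : Finset (Fin B)) {r m : ℕ} (hm : Z.card = m) (hr : r + 2 * m = 2 * B)
    (hr2 : 2 ≤ r) (hm1 : 1 ≤ m) {f0 f1 f2 : ℝ} (Ga Gz : ℕ → ℕ → ℝ) (ha : 0 ≤ Ga 0 0) (hz : 0 ≤ Gz 0 0)
    (h0 : 0 ≤ Ga 0 0 / r + Gz 0 0 / (2 * m) - (f2 - f1) + (f1 - f0)) (v : Bk B → ℝ)
    (hv : v none = 0) (hs : ∑ k, v k = 0) :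
    ∑ j, ∑ k ∈ Finset.univ.erase j, VP2 Z f0 f1 f2 j k * (v j * v k) ≤
      ∑ k, Dt Z f0 f2 Ga Gz 0 k * v k ^ 2 := by
  have hmB : m ≤ B := by rw [← hm]; exact card_finset_fin_le Z
  have hj : ja Z (0 : Mo B) = 0 := by
    rw [ja]
    refine Finset.sum_eq_zero fun k _ => ?_
    cases k <;> simp [nb]
  have hl : lz Z (0 : Mo B) = 0 := by
    rw [lz]
    refine Finset.sum_eq_zero fun k _ => ?_
    cases k <;> simp [nb]
  have hnb : ∀ k : Bk B, nb (0 : Mo B) k = 0 := by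
    intro k
    cases k <;> simp [nb]
  have ex : ∑ k ∈ (zb Z)ᶜ, v k = ∑ k ∈ Zᶜ, v (some k) := by
    rw [sum_zbc, hv, zero_add]
  have ey : ∑ k ∈ zb Z, v k = ∑ k ∈ Z, v (some k) := sum_zb Z v
  have ex2 : ∑ k ∈ (zb Z)ᶜ, v k ^ 2 = ∑ k ∈ Zᶜ, v (some k) ^ 2 := by
    rw [sum_zbc Z (fun k => v k ^ 2), hv]
    simp
  have ey2 : ∑ k ∈ zb Z, v k ^ 2 = ∑ k ∈ Z, v (some k) ^ 2 := sum_zb Z (fun k => v k ^ 2)
  have eD : ∑ k, Dt Z f0 f2 Ga Gz 0 k * v k ^ 2 =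
      (Gz 0 0 / 2 - f0) * (∑ k ∈ Z, v (some k) ^ 2) +
        (Ga 0 0 / 2 - f2) * ∑ k ∈ Zᶜ, v (some k) ^ 2 := by
    rw [sum_blk Z, sum_zb Z (fun k => Dt Z f0 f2 Ga Gz 0 k * v k ^ 2),
      sum_zbc Z (fun k => Dt Z f0 f2 Ga Gz 0 k * v k ^ 2), hv, Finset.mul_sum, Finset.mul_sum]
    congr 1
    · refine Finset.sum_congr rfl fun k hk => ?_
      unfold Dt
      dsimp only
      rw [if_pos hk, hj, hl, hnb]
      norm_num
    · rw [zero_pow two_ne_zero, mul_zero, zero_add]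
      refine Finset.sum_congr rfl fun k hk => ?_
      unfold Dt
      dsimp only
      rw [if_neg (Finset.mem_compl.1 hk), hj, hl, hnb]
      norm_num
  have hr0 : (0 : ℝ) < r := by exact_mod_cast (by omega : 0 < r)
  have hm0 : (0 : ℝ) < 2 * m := by
    have : (0 : ℝ) < m := by exact_mod_cast (by omega : 0 < m)
    linarith
  have hca : (∑ k ∈ Zᶜ, v (some k)) ^ 2 / (r : ℝ) ≤ (∑ k ∈ Zᶜ, v (some k) ^ 2) / 2 := by
    have h := Finset.sq_sum_div_le_sum_sq_div Zᶜ (fun k => v (some k))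
      (g := fun _ => (2 : ℝ)) (fun _ _ => by norm_num)
    have e : ∑ k ∈ Zᶜ, (2 : ℝ) = (r : ℝ) := by
      rw [Finset.sum_const, Finset.card_compl, Fintype.card_fin, hm,
        nsmul_eq_mul, Nat.cast_sub hmB]
      have : (r : ℝ) + 2 * m = 2 * B := by exact_mod_cast hr
      linarith
    rw [e, ← Finset.sum_div] at h
    exact h
  have hcz : (∑ k ∈ Z, v (some k)) ^ 2 / (2 * (m : ℝ)) ≤ (∑ k ∈ Z, v (some k) ^ 2) / 2 := by
    have h := Finset.sq_sum_div_le_sum_sq_div Z (fun k => v (some k))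
      (g := fun _ => (2 : ℝ)) (fun _ _ => by norm_num)
    have e : ∑ k ∈ Z, (2 : ℝ) = 2 * (m : ℝ) := by
      rw [Finset.sum_const, hm, nsmul_eq_mul]
      ring
    rw [e, ← Finset.sum_div] at h
    exact h
  have hxy : ∑ k ∈ Z, v (some k) = -∑ k ∈ Zᶜ, v (some k) := by
    have := sum_blk Z v
    rw [hs, ex, ey] at this
    linarith
  rw [dsum, eD, ex, ey, ex2, ey2]
  rw [hxy] at hcz ⊢
  set x := ∑ k ∈ Zᶜ, v (some k)
  set X2 := ∑ k ∈ Zᶜ, v (some k) ^ 2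
  set Y2 := ∑ k ∈ Z, v (some k) ^ 2
  have k1 := mul_le_mul_of_nonneg_left hca ha
  have k2 := mul_le_mul_of_nonneg_left hcz hz
  have k3 := mul_nonneg h0 (sq_nonneg x)
  have e1 : (Ga 0 0 / r + Gz 0 0 / (2 * m) - (f2 - f1) + (f1 - f0)) * x ^ 2 =
      Ga 0 0 * (x ^ 2 / r) + Gz 0 0 * ((-x) ^ 2 / (2 * m)) - (f2 - f1) * x ^ 2 + (f1 - f0) * x ^ 2 := by
    ring
  rw [e1] at k3
  nlinarith [k1, k2, k3]

theorem nok_of {r m : ℕ} (hr : r + 2 * m = 2 * B) (hr2 : 2 ≤ r) (hm : 1 ≤ m) {f0 f1 f2 : ℝ}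
    (T Ga Gz : ℕ → ℕ → ℝ) (hG : ∀ a b, 0 ≤ Ga a b ∧ 0 ≤ Gz a b)
    (h : ∀ a b : ℕ, 1 ≤ a + b → 0 ≤ T a b ∧
      (2 * ((a : ℝ) + b) - 1) ^ 2 * T a b + 2 * a * Ga (a - 1) b + 2 * b * Gz a (b - 1) ≤
        f1 * (2 * ((a : ℝ) + b)) * (2 * ((a : ℝ) + b) - 1) + (f2 - f1) * (2 * a) * (2 * a - 1) -
          (f1 - f0) * (2 * b) ^ 2 ∧
      ∀ x y : ℝ, 0 ≤ (T a b - f1) * (x + y) ^ 2 + (Ga a b / (2 * a + r) - (f2 - f1)) * x ^ 2 +
        (Gz a b / (2 * b + 2 * m) + (f1 - f0)) * y ^ 2)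
    (h0 : 0 ≤ Ga 0 0 / r + Gz 0 0 / (2 * m) - (f2 - f1) + (f1 - f0)) : NOK B m f0 f1 f2 := by
  intro Z hZ M F hF hNL hz
  have key : ∀ (q : ℕ) (n : Mo B), n ∈ levo B (2 * q + 2) → (¬ ∃ k, eb n k ≠ 0) →
      ∃ a b : ℕ, ja Z n = 2 * a ∧ lz Z n = 2 * b ∧ a + b = q + 1 ∧ ja Z n / 2 = a ∧
        lz Z n / 2 = b := by
    intro q n hn hp
    obtain ⟨⟨a, ha⟩, ⟨b, hb⟩⟩ := neutral_even_j Z (q := q + 1) (n := n) hn hp
    have h1 := ja_add_lz Z hn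
    exact ⟨a, b, by omega, by omega, by omega, by omega, by omega⟩
  have hmain := abs_low (VP2 Z f0 f1 f2) (VP1 Z f1 f2) (fun _ _ => 0) M F hF hNL
    (fun n => ¬ ∃ k, eb n k ≠ 0) (fun n k => by simp only [eb_upo])
    (fun n => T (ja Z n / 2) (lz Z n / 2)) (fun _ => 0) (fun _ => 0)
    (Dt Z f0 f2 Ga Gz) (Du Z f0 f2 Ga Gz) (Du_upo Z f0 f2 Ga Gz)
    (by
      intro q n hn hp _
      obtain ⟨a, b, ha, hb, hab, ha2, hb2⟩ := key q n hn hp
      show 0 ≤ T (ja Z n / 2) (lz Z n / 2)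
      rw [ha2, hb2]
      exact (h a b (by omega)).1)
    (by
      intro q n hn hp hn0
      obtain ⟨a, b, ha, hb, hab, ha2, hb2⟩ := key q n hn hp
      have he : ∀ k, eb n k = 0 := by
        intro k
        by_contra hk
        exact hp ⟨k, hk⟩
      show (2 * (q : ℝ) + 1) ^ 2 * T (ja Z n / 2) (lz Z n / 2) +
        ∑ k, wt n k * Du Z f0 f2 Ga Gz n k + 0 ≤ _
      rw [wt_Du Z f0 f2 Ga Gz n he hn0, cn_zero Z f0 f1 f2 n he hn0, ha2, hb2, ha, hb]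
      have h1 := (h a b (by omega)).2.1
      have hq : (a : ℝ) + b = q + 1 := by exact_mod_cast hab
      have hq2 : 2 * ((a : ℝ) + b) - 1 = 2 * (q : ℝ) + 1 := by
        rw [hq]; ring
      rw [hq2] at h1
      push_cast
      have e1 : f1 * (2 * ((a : ℝ) + b)) * (2 * (q : ℝ) + 1) =
          f1 * (2 * ((a : ℝ) + b)) * (2 * ((a : ℝ) + b) - 1) := by rw [hq2]
      rw [e1] at h1
      nlinarith [h1])
    (by
      intro q n hn hp hn0 v hv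
      obtain ⟨a, b, ha, hb, hab, ha2, hb2⟩ := key q n hn hp
      show _ ≤ (T (ja Z n / 2) (lz Z n / 2) + 0) * (∑ k, v k) ^ 2 + _
      rw [ha2, hb2, add_zero]
      refine ver_IIe Z hZ hr (hG a b).1 (hG a b).2 n hn0 _ ?_ ?_ v hv
      · intro k
        unfold Dt
        dsimp only
        rw [ha2, hb2]
      · intro x y _
        have h1 := (h a b (by omega)).2.2 x y
        rw [ha, hb]
        push_cast
        have e : f0 - f1 = -(f1 - f0) := by ring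
        rw [e, sub_neg_eq_add]
        exact h1)
    (fun _ => ⟨hz, fun v hv hs => ver_0e Z hZ hr hr2 hm Ga Gz (hG 0 0).1 (hG 0 0).2 h0 v hv hs⟩)
  refine le_trans (le_of_eq ?_) hmain
  simp [Kp]

theorem nok_empty {f : ℝ} (hf : 0 ≤ f) : NOK B 0 f f f := by
  intro Z hZ M F hF _ hz
  refine neu_gen (r := 2 * B + 1) (m := 0) (Am := 0) (Bp := 0) Z hZ (by ring) le_rfl le_rfl
    (by ring) (by ring) (fun j l hjl => ?_) M F hF hz
  have hN : (2 : ℝ) ≤ (j : ℝ) + l := by exact_mod_cast hjl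
  constructor
  · unfold TT0
    have h1 : 0 ≤ f * ((j : ℝ) + l) * ((j : ℝ) + l - 1) :=
      mul_nonneg (mul_nonneg hf (by linarith)) (by linarith)
    linarith
  · intro x y
    have e : QQf (2 * B + 1) 0 f 0 0 0 0 j l x y =
        f * ((j : ℝ) + l - 1) / ((j : ℝ) + l - 1) ^ 2 * (x + y) ^ 2 := by
      unfold QQf
      ring
    rw [e]
    exact mul_nonneg (div_nonneg (mul_nonneg hf (by linarith)) (sq_nonneg _)) (sq_nonneg _)

end Pool.Agent.H35.SHP
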