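import Mathlib
import Pool.Agent.H35.SHP.ENeC



set_option autoImplicit false

/-!
# EQA: from the certificates of helper48 (`GQ`) and helper85 (`G0`) to `EOkAt`

`goodE_of`: `GoodE` from `GQ`: `t = 2 f2` if `r = 2`, else `t = 2 f1 - 2 Ap - 2 Am` (`QQf` at `(2, 0)`).
-/

open Pool.Agent.H89.CZ Pool.Agent.H35.ODD

noncomputable section

namespace Pool.Agent.H35.SHP

theorem goodE_of {r m : ℕ} (hr : Even r) (hr2 : 2 ≤ r) {f0 f1 f2 Ap Am Bp Bm : ℝ} (h1 : 0 ≤ Ap) (h2 : 0 ≤ Am)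
    (h3 : 0 ≤ Bp) (h4 : 0 ≤ Bm) (h5 : f2 = f1 + Ap - Am) (h6 : f0 = f1 - Bp + Bm)
    (h7 : ∀ j l : ℕ, 2 ≤ j + l → 0 ≤ TT0 f1 Ap Am Bp j l ∧ ∀ x y : ℝ,
      0 ≤ QQf r m f1 Ap Am Bp Bm j l x y +
        (if r = 2 ∧ j = 2 ∧ l = 0 then 4 * Ap * (x + y) ^ 2 else 0)) : GoodE r m f0 f1 f2 := by
  obtain ⟨hT, hQ⟩ := h7 2 0 (by norm_num)
  have hT' : Ap + Am ≤ f1 := by
    simp only [TT0] at hT
    push_cast at hT
    nlinarith [hT]
  have hrest : ∀ j l : ℕ, Even (j + l) → 2 ≤ j + l → ¬ (j = 2 ∧ l = 0) →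
      0 ≤ TT0 f1 Ap Am Bp j l ∧ ∀ x y : ℝ, 0 ≤ QQf r m f1 Ap Am Bp Bm j l x y := by
    intro j l _ hjl hne
    obtain ⟨h8, h9⟩ := h7 j l hjl
    refine ⟨h8, fun x y => ?_⟩
    have h10 := h9 x y
    rw [if_neg (fun h => hne h.2), add_zero] at h10
    exact h10
  by_cases hr' : r = 2
  · refine ⟨Ap, Am, Bp, Bm, 2 * f2, h1, h2, h3, h4, by linarith, h5, h6, fun h => by omega,
      le_refl _, fun x y => ?_, hrest⟩
    have h10 := hQ x y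
    rw [if_pos ⟨hr', rfl, rfl⟩] at h10
    simp only [QQf] at h10
    push_cast at h10
    have h11 : (f1 * ((2 : ℝ) + 0 - 1) - Ap * 2 - Am * 2 * ((2 : ℝ) + 0 - 1) - Bp * 0 * ((2 : ℝ) + 0)) /
        ((2 : ℝ) + 0 - 1) ^ 2 * (x + y) ^ 2 +
        ((Ap * ((2 : ℝ) + 2) + Bp * 0) / ((2 : ℝ) + r) - (Ap - Am)) * x ^ 2 +
        ((Am * 2 + Bm * ((0 : ℝ) + 2)) / ((0 : ℝ) + 2 * m) + (Bp - Bm)) * y ^ 2 +
        4 * Ap * (x + y) ^ 2 = (2 * f2 - f1) * (x + y) ^ 2 +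
        (4 * Ap / (2 + r) - (Ap - Am)) * x ^ 2 +
        ((2 * Am + 2 * Bm) / (2 * m) + (Bp - Bm)) * y ^ 2 := by
      rw [h5]
      ring
    rw [← h11]
    exact h10
  · refine ⟨Ap, Am, Bp, Bm, 2 * f1 - 2 * Ap - 2 * Am, h1, h2, h3, h4, by linarith, h5, h6,
      fun _ => le_refl _, by linarith, fun x y => ?_, hrest⟩
    have h10 := hQ x y
    rw [if_neg (fun h => hr' h.1), add_zero] at h10
    simp only [QQf] at h10
    push_cast at h10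
    have h11 : (f1 * ((2 : ℝ) + 0 - 1) - Ap * 2 - Am * 2 * ((2 : ℝ) + 0 - 1) - Bp * 0 * ((2 : ℝ) + 0)) /
        ((2 : ℝ) + 0 - 1) ^ 2 * (x + y) ^ 2 +
        ((Ap * ((2 : ℝ) + 2) + Bp * 0) / ((2 : ℝ) + r) - (Ap - Am)) * x ^ 2 +
        ((Am * 2 + Bm * ((0 : ℝ) + 2)) / ((0 : ℝ) + 2 * m) + (Bp - Bm)) * y ^ 2 =
        (2 * f1 - 2 * Ap - 2 * Am - f1) * (x + y) ^ 2 +
        (4 * Ap / (2 + r) - (Ap - Am)) * x ^ 2 +
        ((2 * Am + 2 * Bm) / (2 * m) + (Bp - Bm)) * y ^ 2 := by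
      ring
    rw [← h11]
    exact h10

theorem goodE_empty {r : ℕ} {f : ℝ} (hf : 0 ≤ f) : GoodE r 0 f f f := by
  refine ⟨0, 0, 0, 0, 2 * f, le_refl _, le_refl _, le_refl _, le_refl _, by linarith, by ring,
    by ring, fun _ => by linarith, le_refl _, fun x y => ?_, fun j l _ hjl _ => ?_⟩
  · have h : (2 * f - f) * (x + y) ^ 2 + (4 * 0 / (2 + (r : ℝ)) - (0 - 0)) * x ^ 2 +
        ((2 * 0 + 2 * 0) / (2 * ((0 : ℕ) : ℝ)) + (0 - 0)) * y ^ 2 = f * (x + y) ^ 2 := by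
      have e : 2 * f - f = f := by ring
      rw [e]
      simp
    rw [h]
    exact mul_nonneg hf (sq_nonneg _)
  · have h2 : (2 : ℝ) ≤ (j : ℝ) + l := by exact_mod_cast hjl
    refine ⟨?_, fun x y => ?_⟩
    · have h : TT0 f 0 0 0 j l = f * (((j : ℝ) + l) * ((j : ℝ) + l - 1)) := by
        simp only [TT0]
        ring
      rw [h]
      exact mul_nonneg hf (mul_nonneg (by linarith) (by linarith))
    · have h : QQf r 0 f 0 0 0 0 j l x y =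
          f * ((j : ℝ) + l - 1) / ((j : ℝ) + l - 1) ^ 2 * (x + y) ^ 2 := by
        simp only [QQf]
        simp
      rw [h]
      exact mul_nonneg (div_nonneg (mul_nonneg hf (by linarith)) (sq_nonneg _)) (sq_nonneg _)

end Pool.Agent.H35.SHP
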