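import Mathlib
import Pool.Agent.H35.SHP.ECor
import Pool.Agent.H35.SHP.EQA
import Pool.Agent.H89.ODD.HypE
import Pool.Agent.H48.SHP.CerQ
import Pool.Agent.H85.SHP.Cer
import Pool.Agent.H89.ODD.At

set_option autoImplicit false

/-!
# ECore: the kernel inequality in all links

`Del` at the vertices `1 ≤ m < B` (`del_at`), `b_at`, certificates of helper48 and helper85, `coroE`.
-/

open MeasureTheory Pool.Agent.H61.UProj Pool.Agent.H89.CZ Pool.Agent.H35.NI Pool.Agent.H89.EN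
open Pool.Agent.H35.ODD Pool.Agent.H89.ODD

noncomputable section

namespace Pool.Agent.H35.SHP

/-- The isotropic bound for planes. -/
private theorem iso2 {n : ℕ} (hn : 2 ≤ n) {e : Fin 2 → Cn n} (he : Orthonormal ℝ e) :
    (2 * (n : ℝ) - 2) * gg e (fun a : Fin 2 => vf n 0 a) ≤
      (2 * n - 1) * gg e (fun a : Fin 2 => vf n 1 a) := by
  obtain ⟨lam, hl, -, hd⟩ := gg_dec (n := n) (by omega : 0 < 2) hn he
  rw [hd, hd]
  have e2 : (2 / 2 + 1 : ℕ) = 2 := rfl
  rw [e2, Finset.sum_range_succ, Finset.sum_range_one, Finset.sum_range_succ,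
    Finset.sum_range_one]
  have h0 := hl 0
  have h1 := hl 1
  have s1 := fh.step n 2 0 hn (by omega)
  have s2 := fe.two n hn
  have s3 := fh.symm n 2 0 1
  have p0 : 0 < Fq n 2 0 0 := fh.pos n 2 (by omega) hn
  have hn' : (2 : ℝ) ≤ n := by exact_mod_cast hn
  have p1 : 0 ≤ Fq n 2 1 0 := gg_nonneg _ _
  change (2 * (n : ℝ) - 2) * (lam 0 * Fq n 2 0 0 + lam 1 * Fq n 2 1 0) ≤
    (2 * n - 1) * (lam 0 * Fq n 2 0 1 + lam 1 * Fq n 2 1 1)
  rw [s3, s2]
  simp only [zero_add] at s1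
  push_cast at s1
  have k1 : (2 * (n : ℝ) - 1) * Fq n 2 1 0 = (2 * n - 2) * Fq n 2 0 0 := by
    linear_combination s1
  have k2 : (2 * (n : ℝ) - 2) * Fq n 2 1 0 ≤ (2 * n - 1) * (2 * Fq n 2 1 0) := by
    nlinarith
  have k3 := mul_le_mul_of_nonneg_left k2 h1
  have k4 : lam 0 * ((2 * (n : ℝ) - 1) * Fq n 2 1 0) = lam 0 * ((2 * n - 2) * Fq n 2 0 0) := by
    rw [k1]
  linarith

section

variable {n m B : ℕ} (heven : Even m) (hm : m + 2 < 2 * n) (hB : m + 2 * B = 2 * n)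
  {e : Fin (m + 2) → Cn n} (he : Orthonormal ℝ e) (φ : ℕ → ℝ)
  (hφ : ∀ x, x < B → n ≤ x + (m + 2) →
    φ x = gg e (fun a : Fin (m + 2) => vf n (x + (m + 2) - n) a))

omit hB in
include hφ in
private theorem phi_nn {x : ℕ} (hx : x < B) (hn : n ≤ x + (m + 2)) : 0 ≤ φ x := by
  rw [hφ x hx hn]
  exact gg_nonneg _ _

include heven hm hB he hφ in
/-- The bound below at `Z = univ`. -/
private theorem uni_low : (2 * (B : ℝ) - 2) * φ (B - 2) ≤ (2 * B - 1) * φ (B - 1) := by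
  rcases Nat.eq_zero_or_pos m with h | h
  · subst h
    have hBn : B = n := by omega
    subst hBn
    rw [hφ (B - 1) (by omega) (by omega), hφ (B - 2) (by omega) (by omega),
      show B - 1 + (0 + 2) - B = 1 by omega, show B - 2 + (0 + 2) - B = 0 by omega]
    exact iso2 (by omega) he
  · obtain ⟨t, ht⟩ := heven
    obtain ⟨f0, hD, -⟩ := del_at ⟨t, ht⟩ hm hB he φ hφ (z := B - 1) (by omega) (by omega) (by omega)
    obtain ⟨-, h2, -, -⟩ := hD
    have e1 : B - 1 - 1 = B - 2 := by omega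
    have hB1 : 1 ≤ B := by omega
    rw [e1, Nat.cast_sub hB1] at h2
    push_cast at h2
    linarith

include heven hm hB he hφ in
private theorem uni_at (hb : (4 * (B : ℝ) + 1) * φ (B - 1) ≤ (6 * B + 2) * φ (B - 2)) :
    Uni B (φ (B - 2)) (φ (B - 1)) := by
  have hB2 : 2 ≤ B := by
    obtain ⟨t, ht⟩ := heven
    omega
  refine ⟨phi_nn φ hφ (by omega) (by omega), phi_nn φ hφ (by omega) (by omega), ?_⟩
  rcases le_total (φ (B - 2)) (φ (B - 1)) with h | h
  · exact Or.inl ⟨h, hb⟩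
  · exact Or.inr ⟨h, uni_low heven hm hB he φ hφ⟩

end

theorem allcore {n m : ℕ} (heven : Even m) (hm : m + 2 < 2 * n) {e : Fin (m + 2) → Cn n}
    (he : Orthonormal ℝ e)
    (hc : ((m : ℝ) + 2) * (2 * n - m - 2) * (∫ θ in (0 : ℝ)..Real.pi, TT e θ) ≤
      ((m : ℝ) + 4) * (6 * n - 3 * m + 2) *
        ∫ θ in (0 : ℝ)..Real.pi, TT e θ * Real.cos (2 * θ)) :
    Pool.Agent.H89.ODD.AllCore e := by
  intro B c φ hB hc01 hZ hφ N u hu hu0 lam hl
  have hB2 : 2 ≤ B := by
    obtain ⟨t, ht⟩ := heven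
    omega
  have hb := b_at heven hm hB he hc φ hφ
  refine coroE hB2 hc01 φ (fun Z hPZ => ?_) u hu hu0 lam hl
  have hz := hZ Z hPZ
  have hle : Z.card ≤ B := by simpa using Finset.card_le_univ Z
  generalize Z.card = z at hz hle
  rcases Nat.lt_or_ge z B with hlt | hge
  · left
    refine ⟨hlt, ?_⟩
    rcases Nat.eq_zero_or_pos z with h0 | h1
    · subst h0
      have hf := phi_nn φ hφ (x := 0) (by omega) (by omega)
      exact ⟨⟨φ 0, φ 0, φ 0, goodE_empty hf, by omega, rfl, by omega⟩,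
        φ 0, φ 0, φ 0, nok_empty hf, by omega, rfl, by omega⟩
    · obtain ⟨f0, hD, h2⟩ := del_at heven hm hB he φ hφ hz h1 hlt
      have hA : 4 ≤ 2 * B - 2 * z ∨ (2 * B - 2 * z = 2 ∧
          (4 * (z : ℝ) + 5) * (φ z - φ (z - 1)) ≤ (2 * z + 3) * φ (z - 1)) := by
        rcases Nat.lt_or_ge (2 * B - 2 * z) 4 with h4 | h4
        · have hzB : B = z + 1 := by omega
          refine Or.inr ⟨by omega, ?_⟩
          subst hzB
          rw [show z + 1 - 1 = z by omega, show z + 1 - 2 = z - 1 by omega] at hb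
          push_cast at hb
          linarith
        · exact Or.inl h4
      constructor
      · obtain ⟨g0, ⟨Ap, Am, Bp, Bm, a1, a2, a3, a4, a5, a6, a7⟩, hg⟩ :=
          Pool.Agent.H48.SHP.gq_of_del h1 hD hA
        refine ⟨g0, φ (z - 1), φ z, goodE_of ⟨B - z, by omega⟩ (by omega) a1 a2 a3 a4 a5 a6 ?_,
          fun _ => rfl, rfl, fun h => by rw [hg h, h2 h]⟩
        exact a7
      · obtain ⟨g0, hg, T, Ga, Gz, b1, b2, b3⟩ := Pool.Agent.H85.SHP.g0_of_del hD h1 hA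
        exact ⟨g0, φ (z - 1), φ z, nok_of (by omega) (by omega) h1 T Ga Gz b1 b2 b3,
          fun _ => rfl, rfl, fun h => by rw [hg h, h2 h]⟩
  · right
    have hzB : z = B := by omega
    exact ⟨hzB, uni_at heven hm hB he φ hφ hb⟩

end Pool.Agent.H35.SHP
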